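import Pool.Agent.H419.MX.Stm
import Pool.Agent.H419.RM.Fin

/-! # The exact densities: infinite sets of odd primes -/

set_option autoImplicit false
set_option linter.unusedSectionVars false
set_option maxHeartbeats 400000

open NumberField Filter Topology
open Pool.Agent.TH444.ML Pool.Agent.H419.LT Pool.Agent.H419.RM

namespace Pool.Agent.H419.MX

/-- The infinite product: the infimum of the products over the finite subsets. -/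
noncomputable def locW (M : Type) [Field M] [NumberField M] (W : Set (Ideal (𝓞 M))) : ℝ :=
  ⨅ W₀ : {W₀ : Finset (Ideal (𝓞 M)) // ∀ 𝔓 ∈ W₀, 𝔓 ∈ W}, loc M W₀.1

section

variable {M : Type} [Field M] [NumberField M]

theorem loc_nonneg (W₀ : Finset (Ideal (𝓞 M))) : 0 ≤ loc M W₀ :=
  Finset.prod_nonneg fun _ _ => by positivity

theorem bdd (W : Set (Ideal (𝓞 M))) : BddBelow (Set.range fun
    W₀ : {W₀ : Finset (Ideal (𝓞 M)) // ∀ 𝔓 ∈ W₀, 𝔓 ∈ W} => loc M W₀.1) :=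
  ⟨0, by rintro _ ⟨W₀, rfl⟩; exact loc_nonneg W₀.1⟩

instance (W : Set (Ideal (𝓞 M))) :
    Nonempty {W₀ : Finset (Ideal (𝓞 M)) // ∀ 𝔓 ∈ W₀, 𝔓 ∈ W} :=
  ⟨⟨∅, fun 𝔓 h => absurd h (Finset.notMem_empty 𝔓)⟩⟩

theorem locW_nonneg (W : Set (Ideal (𝓞 M))) : 0 ≤ locW M W :=
  le_ciInf fun W₀ => loc_nonneg W₀.1

theorem locW_le (W : Set (Ideal (𝓞 M))) (W₀ : Finset (Ideal (𝓞 M))) (h : ∀ 𝔓 ∈ W₀, 𝔓 ∈ W) :
    locW M W ≤ loc M W₀ :=
  ciInf_le (bdd W) ⟨W₀, h⟩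

theorem exists_lt (W : Set (Ideal (𝓞 M))) (x : ℝ) (hx : locW M W < x) :
    ∃ W₀ : Finset (Ideal (𝓞 M)), (∀ 𝔓 ∈ W₀, 𝔓 ∈ W) ∧ loc M W₀ < x := by
  obtain ⟨⟨W₀, h⟩, h1⟩ := exists_lt_of_ciInf_lt hx
  exact ⟨W₀, h, h1⟩

theorem one_add_le_prod {ι : Type*} (s : Finset ι) (f : ι → ℝ) (hf : ∀ i, 0 ≤ f i) :
    1 + ∑ i ∈ s, f i ≤ ∏ i ∈ s, (1 + f i) := by
  classical
  induction s using Finset.induction_on with
  | empty => simp
  | insert a s ha ih =>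
    rw [Finset.sum_insert ha, Finset.prod_insert ha]
    have h1 : 0 ≤ ∑ i ∈ s, f i := Finset.sum_nonneg fun i _ => hf i
    have h2 := hf a
    nlinarith [mul_le_mul_of_nonneg_left ih (by linarith : (0 : ℝ) ≤ 1 + f a), mul_nonneg h2 h1]

/-- the infinite product vanishes if the sum diverges -/
theorem locW_eq_zero (W : Set (Ideal (𝓞 M)))
    (hs : ¬ Summable (fun 𝔓 : W => (1 : ℝ) / Ideal.absNorm 𝔓.1)) : locW M W = 0 := by
  classical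
  refine le_antisymm ?_ (locW_nonneg W)
  by_contra hcon
  push Not at hcon
  apply hs
  refine summable_of_sum_le (c := 1 / locW M W) (fun _ => by positivity) fun u => ?_
  have h1 := locW_le W (u.image fun 𝔓 => 𝔓.1) (by
    intro 𝔓 h
    obtain ⟨𝔔, -, rfl⟩ := Finset.mem_image.1 h
    exact 𝔔.2)
  have h2 : loc M (u.image fun 𝔓 => 𝔓.1) =
      (∏ 𝔓 ∈ u, (1 + (1 : ℝ) / Ideal.absNorm 𝔓.1))⁻¹ := by
    unfold loc
    rw [Finset.prod_image (fun a _ b _ h => Subtype.ext h), ← Finset.prod_inv_distrib]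
  rw [h2] at h1
  have h3 := one_add_le_prod u (fun 𝔓 : W => (1 : ℝ) / Ideal.absNorm 𝔓.1) fun _ => by positivity
  have h4 : (0 : ℝ) < ∏ 𝔓 ∈ u, (1 + (1 : ℝ) / Ideal.absNorm 𝔓.1) :=
    Finset.prod_pos fun _ _ => by positivity
  have h5 : ∏ 𝔓 ∈ u, (1 + (1 : ℝ) / Ideal.absNorm 𝔓.1) ≤ 1 / locW M W := by
    rw [le_div_iff₀ hcon]
    calc (∏ 𝔓 ∈ u, (1 + (1 : ℝ) / Ideal.absNorm 𝔓.1)) * locW M W ≤
        (∏ 𝔓 ∈ u, (1 + (1 : ℝ) / Ideal.absNorm 𝔓.1)) *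
          (∏ 𝔓 ∈ u, (1 + (1 : ℝ) / Ideal.absNorm 𝔓.1))⁻¹ :=
          mul_le_mul_of_nonneg_left h1 h4.le
      _ = 1 := mul_inv_cancel₀ h4.ne'
  linarith

/-- **LIMX**: the density of the quadratic extensions which are unramified at the odd primes in `W`. -/
theorem limX (h : S_QSX) (M E : Type) [Field M] [NumberField M] [Field E] [Algebra M E]
    [IsAlgClosed E] : ∃ c : ℝ, 0 < c ∧ ∀ W : Set (Ideal (𝓞 M)),
    (∀ 𝔓 ∈ W, 𝔓.IsPrime ∧ 𝔓 ≠ ⊥ ∧ (2 : 𝓞 M) ∉ 𝔓) →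
    Tendsto (fun Y : ℝ => (Set.ncard {L : IntermediateField M E | L ∈ QS M E Y ∧
      ∀ 𝔓 ∈ W, Unr M L 𝔓} : ℝ) / Y) atTop (𝓝 (c * locW M W)) := by
  obtain ⟨c, hc0, hc⟩ := h M E
  refine ⟨c, hc0, fun W hW => ?_⟩
  have hupper : ∀ W₀ : Finset (Ideal (𝓞 M)), (∀ 𝔓 ∈ W₀, 𝔓 ∈ W) → ∀ Y : ℝ, 0 < Y →
      (Set.ncard {L : IntermediateField M E | L ∈ QS M E Y ∧ ∀ 𝔓 ∈ W, Unr M L 𝔓} : ℝ) / Y ≤
      (Set.ncard {L : IntermediateField M E | L ∈ QS M E Y ∧ ∀ 𝔓 ∈ W₀, Unr M L 𝔓} : ℝ) / Y := by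
    intro W₀ hW₀ Y hY
    have hQ := finite_QS (M := M) (E := E) Y hY.le
    refine div_le_div_of_nonneg_right ?_ hY.le
    have : {L : IntermediateField M E | L ∈ QS M E Y ∧ ∀ 𝔓 ∈ W, Unr M L 𝔓} ⊆
        {L : IntermediateField M E | L ∈ QS M E Y ∧ ∀ 𝔓 ∈ W₀, Unr M L 𝔓} :=
      fun L h => ⟨h.1, fun 𝔓 h𝔓 => h.2 𝔓 (hW₀ 𝔓 h𝔓)⟩
    exact_mod_cast Set.ncard_le_ncard this (hQ.subset fun L h => h.1)
  rw [tendsto_order]
  constructor
  · intro x hx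
    by_cases hs : Summable (fun 𝔓 : W => (1 : ℝ) / Ideal.absNorm 𝔓.1)
    · obtain ⟨W₀, h1, h2⟩ := near_fin (E := E) (DIV.t_DIV RAMB.t_RAMB CUB.t_CUB) W
        (fun 𝔓 h => ⟨(hW 𝔓 h).1, (hW 𝔓 h).2.1⟩) hs ((c * locW M W - x) / 2) (by linarith)
      have h3 := hc W₀ fun 𝔓 h => hW 𝔓 (h1 𝔓 h)
      have h4 : c * locW M W ≤ c * loc M W₀ :=
        mul_le_mul_of_nonneg_left (locW_le W W₀ h1) hc0.le
      have h5 : x + (c * locW M W - x) / 2 < c * loc M W₀ := by linarith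
      filter_upwards [h3.eventually (lt_mem_nhds h5), eventually_gt_atTop (0 : ℝ)] with Y h6 hY
      have h7 := (abs_le.1 (h2 Y hY)).1
      linarith
    · rw [locW_eq_zero W hs, mul_zero] at hx
      filter_upwards [eventually_gt_atTop (0 : ℝ)] with Y hY
      exact hx.trans_le (by positivity)
  · intro x hx
    have h1 : locW M W < x / c := by
      rw [lt_div_iff₀ hc0]
      linarith
    obtain ⟨W₀, h2, h3⟩ := exists_lt W _ h1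
    have h4 : c * loc M W₀ < x := by
      rw [lt_div_iff₀ hc0] at h3
      linarith
    have h5 := hc W₀ fun 𝔓 h => hW 𝔓 (h2 𝔓 h)
    filter_upwards [h5.eventually (gt_mem_nhds h4), eventually_gt_atTop (0 : ℝ)] with Y h6 hY
    exact (hupper W₀ h2 Y hY).trans_lt h6

end

/-- The primes of `M` above the primes in `S`. -/
def above (K M : Type) [Field K] [NumberField K] [Field M] [NumberField M] [Algebra K M]
    (S : Set (Ideal (𝓞 K))) : Set (Ideal (𝓞 M)) :=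
  {𝔓 : Ideal (𝓞 M) | 𝔓.IsPrime ∧ 𝔓.comap (algebraMap (𝓞 K) (𝓞 M)) ∈ S}

open Classical in
/-- The density for `M`. -/
noncomputable def locM (K M : Type) [Field K] [NumberField K] [Field M] [NumberField M]
    [Algebra K M] (S : Set (Ideal (𝓞 K))) : ℝ :=
  if ∀ 𝔭 ∈ S, Unr K M 𝔭 then locW M (above K M S) else 0

section

variable {K Ω : Type} [Field K] [NumberField K] [Field Ω] [Algebra K Ω] [IsAlgClosed Ω]

theorem limX_M (hq : S_QSX) (M : IntermediateField K Ω) [FiniteDimensional K M]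
    [NumberField M] : ∃ c : ℝ, 0 < c ∧ ∀ S : Set (Ideal (𝓞 K)),
    (∀ 𝔭 ∈ S, 𝔭.IsPrime ∧ 𝔭 ≠ ⊥ ∧ (2 : 𝓞 K) ∉ 𝔭) →
    Tendsto (fun Y : ℝ => (Set.ncard {L : IntermediateField K Ω | L ∈ AS M Y ∧
      ∀ 𝔭 ∈ S, Unr K L 𝔭} : ℝ) / Y) atTop (𝓝 (c * locM K M S)) := by
  classical
  obtain ⟨c, hc0, hc⟩ := limX hq M Ω
  refine ⟨c, hc0, fun S hS => ?_⟩
  have hnf : ∀ Y : ℝ, ∀ L ∈ QS M Ω Y, NumberField L := fun Y L h => h.2.1
  have hS' : ∀ 𝔭 ∈ S, 𝔭.IsPrime ∧ 𝔭 ≠ ⊥ := fun 𝔭 h => ⟨(hS 𝔭 h).1, (hS 𝔭 h).2.1⟩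
  by_cases hM : ∀ 𝔭 ∈ S, Unr K M 𝔭
  · have e : locM K M S = locW M (above K M S) := if_pos hM
    rw [e]
    have hinj : Function.Injective (algebraMap (𝓞 K) (𝓞 M)) :=
      FaithfulSMul.algebraMap_injective (𝓞 K) (𝓞 M)
    have hWp : ∀ 𝔓 ∈ above K M S, 𝔓.IsPrime ∧ 𝔓 ≠ ⊥ ∧ (2 : 𝓞 M) ∉ 𝔓 := by
      rintro 𝔓 ⟨h1, h2⟩
      refine ⟨h1, ?_, ?_⟩
      · rintro rfl
        apply (hS _ h2).2.1
        rw [eq_bot_iff]
        intro x hx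
        rw [Ideal.mem_comap, Ideal.mem_bot, map_eq_zero_iff _ hinj] at hx
        rw [hx]
        exact Ideal.zero_mem _
      · intro h3
        apply (hS _ h2).2.2
        rw [Ideal.mem_comap, map_ofNat]
        exact h3
    refine (hc _ hWp).congr fun Y => ?_
    rw [ncard_AS_P M (fun L => ∀ 𝔭 ∈ S, Unr K L 𝔭)]
    congr 3
    ext L
    constructor
    · rintro ⟨h1, h2⟩
      have := hnf Y L h1
      exact ⟨h1, (unr_iff M L S hS').2 ⟨hM, h2⟩⟩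
    · rintro ⟨h1, h2⟩
      have := hnf Y L h1
      exact ⟨h1, ((unr_iff M L S hS').1 h2).2⟩
  · have e : locM K M S = 0 := if_neg hM
    rw [e, mul_zero]
    have : ∀ Y : ℝ, Set.ncard {L : IntermediateField K Ω | L ∈ AS M Y ∧
        ∀ 𝔭 ∈ S, Unr K L 𝔭} = 0 := by
      intro Y
      rw [ncard_AS_P M (fun L => ∀ 𝔭 ∈ S, Unr K L 𝔭)]
      have h0 : {L : IntermediateField M Ω | L ∈ QS M Ω Y ∧
          ∀ 𝔭 ∈ S, Unr K (IntermediateField.restrictScalars K L) 𝔭} = ∅ := by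
        rw [Set.eq_empty_iff_forall_notMem]
        rintro L ⟨h1, h2⟩
        have := hnf Y L h1
        exact hM ((unr_iff M L S hS').1 h2).1
      rw [h0, Set.ncard_empty]
    simp only [this, Nat.cast_zero, zero_div]
    exact tendsto_const_nhds

end

end Pool.Agent.H419.MX
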