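import Pool.Agent.H419.MX.Lim

/-! # The mixture formula for the extensions with group `C₂ ≀ H` -/

set_option autoImplicit false
set_option linter.unusedSectionVars false
set_option maxHeartbeats 400000

open NumberField Filter Topology
open Pool.Agent.TH444.ML Pool.Agent.H419.LT Pool.Agent.H419.RM

namespace Pool.Agent.H419.MX

/-- the explicit version of `MAINQ` -/
theorem mainX {K Ω H : Type} [Field K] [NumberField K] [Field Ω] [Algebra K Ω]
    [IsAlgClosure K Ω] [Group H] [Finite H] (h2 : 2 ≤ Nat.card H) (s : ℝ) (hs32 : s < 3 / 2)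
    (hsum : Summable (fun M : Gal K Ω H => (dsc M.1) ^ (-s))) (D : ℝ) (hD : 0 < D) :
    ∃ C : ℝ, 0 ≤ C ∧ (∀ X : ℝ, 0 < X → (TT K Ω H (X * D)).Finite) ∧
    ∀ (P : IntermediateField K Ω → Prop) (cM : Gal K Ω H → ℝ),
    (∀ M : Gal K Ω H, Tendsto (fun Y : ℝ =>
      (Set.ncard {L : IntermediateField K Ω | L ∈ AS M.1 Y ∧ P L} : ℝ) / Y) atTop (𝓝 (cM M))) →
    (∀ M : Gal K Ω H, 0 ≤ cM M * (D / dsc M.1 ^ 2) ∧
      cM M * (D / dsc M.1 ^ 2) ≤ C * (dsc M.1) ^ (-s)) ∧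
      Tendsto (fun X : ℝ =>
      (Set.ncard {L : IntermediateField K Ω | L ∈ TT K Ω H (X * D) ∧ P L} : ℝ) / X) atTop
      (𝓝 (∑' M : Gal K Ω H, cM M * (D / dsc M.1 ^ 2))) := by
  classical
  obtain ⟨C, hC0, hC⟩ := MK.MAINQ.bound_SQ (K := K) (Ω := Ω) H s hs32 D hD
  have hsum' : Summable (fun M : Gal K Ω H => C * (dsc M.1) ^ (-s)) := hsum.mul_left C
  refine ⟨C, hC0, fun X hX => (MK.MAINQ.key_SP s (fun _ => True) h2 hsum D C hC X hX).1, ?_⟩
  intro P cM hcM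
  have hcM0 : ∀ M : Gal K Ω H, 0 ≤ cM M := by
    intro M
    refine ge_of_tendsto (hcM M) ?_
    filter_upwards [eventually_ge_atTop (0 : ℝ)] with Y hY
    positivity
  have hgM := fun M : Gal K Ω H => MK.MAINQ.lim_SP (H := H) P M.1 M.2 (cM M) (hcM M) D hD
  have hdM : ∀ M : Gal K Ω H, 0 < D / dsc M.1 ^ 2 := by
    intro M
    have hfd := gal_fd M.2
    have hnf : NumberField M.1 := nf_of_fd M.1
    have hd1 : 1 ≤ dsc M.1 := one_le_dsc M.1
    have hd0 : 0 < dsc M.1 := by linarith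
    positivity
  have hbd : ∀ M : Gal K Ω H, ∀ X : ℝ, 0 < X →
      (Set.ncard (MK.MAINQ.SP H P M.1 (X * D)) : ℝ) ≤ C * X * (dsc M.1) ^ (-s) := by
    intro M X hX
    have h1 := hC M.1 M.2 X hX
    refine le_trans ?_ h1.2
    exact_mod_cast Set.ncard_le_ncard (MK.MAINQ.SP_sub P M.1 _) h1.1
  refine ⟨fun M => ⟨mul_nonneg (hcM0 M) (hdM M).le, ?_⟩, ?_⟩
  · refine le_of_tendsto (hgM M) ?_
    filter_upwards [eventually_gt_atTop (0 : ℝ)] with X hX
    rw [div_le_iff₀ hX]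
    have := hbd M X hX
    linarith
  · have h := tendsto_tsum_of_dominated_convergence (𝓕 := atTop)
      (f := fun (X : ℝ) (M : Gal K Ω H) => (Set.ncard (MK.MAINQ.SP H P M.1 (X * D)) : ℝ) / X)
      (g := fun M : Gal K Ω H => cM M * (D / dsc M.1 ^ 2)) hsum' (fun M => hgM M) (by
        filter_upwards [eventually_gt_atTop (0 : ℝ)] with X hX M
        rw [Real.norm_of_nonneg (by positivity), div_le_iff₀ hX]
        have := hbd M X hX
        linarith)
    refine h.congr' ?_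
    filter_upwards [eventually_gt_atTop (0 : ℝ)] with X hX
    rw [(MK.MAINQ.key_SP s P h2 hsum D C hC X hX).2, tsum_div_const]

/-- **The mixture formula.** -/
theorem coreX (hq : S_QSX) (K : Type) [Field K] [NumberField K] (H : Type) [Group H]
    [Finite H] (h2 : 2 ≤ Nat.card H) (s : ℝ) (hs : s < 3 / 2)
    (hsum : Summable (fun M : Gal K (AlgebraicClosure K) H => (dsc M.1) ^ (-s))) {n : ℕ}
    (G : Subgroup (Equiv.Perm (Fin n))) (hG : IsC2Wr H G) :
    ∃ w : IntermediateField K (AlgebraicClosure K) → ℝ,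
      (∀ M ∈ Gal K (AlgebraicClosure K) H, 0 < w M) ∧
      Summable (fun M : Gal K (AlgebraicClosure K) H => w M.1) ∧
      ∀ S : Set (Ideal (𝓞 K)), (∀ 𝔭 ∈ S, 𝔭.IsPrime ∧ 𝔭 ≠ ⊥ ∧ (2 : 𝓞 K) ∉ 𝔭) →
      ∀ r : Gal K (AlgebraicClosure K) H → ℝ,
      (∀ M : Gal K (AlgebraicClosure K) H, ∀ h : NumberField M.1,
        r M = @locM K M.1 _ _ _ h _ S) →
      Tendsto (fun X : ℝ =>
        (Nat.card (Quot (fun L L' : {L : IntermediateField K (AlgebraicClosure K) |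
          L ∈ Cnt K G X ∧ ∀ 𝔭 ∈ S, Unr K L 𝔭} => Nonempty (L.1 ≃ₐ[K] L'.1))) : ℝ) / X)
        atTop (𝓝 (∑' M : Gal K (AlgebraicClosure K) H, w M.1 * r M)) := by
  classical
  have hd : 0 < ((|discr K| : ℤ) : ℝ) ^ n := by
    have : (0 : ℤ) < |discr K| := abs_pos.2 (discr_ne_zero K)
    have : (0 : ℝ) < ((|discr K| : ℤ) : ℝ) := by exact_mod_cast this
    positivity
  have hpos : (0 : ℝ) < Nat.card H := by exact_mod_cast (by omega : 0 < Nat.card H)
  have hM : ∀ M : Gal K (AlgebraicClosure K) H, ∃ c : ℝ, 0 < c ∧ ∀ S : Set (Ideal (𝓞 K)),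
      (∀ 𝔭 ∈ S, 𝔭.IsPrime ∧ 𝔭 ≠ ⊥ ∧ (2 : 𝓞 K) ∉ 𝔭) → ∀ r : ℝ,
      (∀ h : NumberField M.1, r = @locM K M.1 _ _ _ h _ S) →
      Tendsto (fun Y : ℝ => (Set.ncard {L : IntermediateField K (AlgebraicClosure K) |
        L ∈ AS M.1 Y ∧ ∀ 𝔭 ∈ S, Unr K L 𝔭} : ℝ) / Y) atTop (𝓝 (c * r)) := by
    intro M
    have hfd := gal_fd M.2
    have hgal : IsGalois K M.1 := M.2.2.1
    have hnf : NumberField M.1 := nf_of_fd M.1
    obtain ⟨c, hc0, hc⟩ := limX_M hq M.1
    refine ⟨c, hc0, fun S hS r hr => ?_⟩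
    rw [hr hnf]
    exact hc S hS
  choose c hc0 hc using hM
  obtain ⟨C, hC0, hfin, hmain⟩ := mainX (K := K) (Ω := AlgebraicClosure K) (H := H) h2 s hs hsum
    _ hd
  have hdM : ∀ M : Gal K (AlgebraicClosure K) H,
      0 < ((|discr K| : ℤ) : ℝ) ^ n / dsc M.1 ^ 2 := by
    intro M
    have hfd := gal_fd M.2
    have hnf : NumberField M.1 := nf_of_fd M.1
    have hd1 : 1 ≤ dsc M.1 := one_le_dsc M.1
    have hd0 : 0 < dsc M.1 := by linarith
    positivity
  set w : IntermediateField K (AlgebraicClosure K) → ℝ := fun M =>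
    if h : M ∈ Gal K (AlgebraicClosure K) H then
      c ⟨M, h⟩ * (((|discr K| : ℤ) : ℝ) ^ n / dsc M ^ 2) / Nat.card H else 0 with hw
  have hw1 : ∀ M : Gal K (AlgebraicClosure K) H,
      w M.1 = c M * (((|discr K| : ℤ) : ℝ) ^ n / dsc M.1 ^ 2) / Nat.card H := by
    intro M
    simp only [hw]
    rw [dif_pos M.2]
  have hset : ∀ (S : Set (Ideal (𝓞 K))) (X : ℝ), {L : IntermediateField K (AlgebraicClosure K) |
      L ∈ Cnt K G X ∧ ∀ 𝔭 ∈ S, Unr K L 𝔭} = {L : IntermediateField K (AlgebraicClosure K) |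
      L ∈ TT K (AlgebraicClosure K) H (X * ((|discr K| : ℤ) : ℝ) ^ n) ∧
        ∀ 𝔭 ∈ S, Unr K L 𝔭} := by
    intro S X
    rw [cnt_eq K hG]
  refine ⟨w, ?_, ?_, ?_⟩
  · intro M h
    rw [hw1 ⟨M, h⟩]
    exact div_pos (mul_pos (hc0 _) (hdM ⟨M, h⟩)) hpos
  · have h1 : Summable (fun M : Gal K (AlgebraicClosure K) H =>
        c M * (((|discr K| : ℤ) : ℝ) ^ n / dsc M.1 ^ 2)) := by
      have h3 := (hmain (fun L => ∀ 𝔭 ∈ (∅ : Set (Ideal (𝓞 K))), Unr K L 𝔭) c (fun M => by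
        have h4 := hc M ∅ (fun 𝔭 h => absurd h (Set.notMem_empty 𝔭)) 1 (fun h => by
          have e : @locM K M.1 _ _ _ h _ ∅ = @locW M.1 _ h (@above K M.1 _ _ _ h _ ∅) :=
            if_pos fun 𝔭 h => absurd h (Set.notMem_empty 𝔭)
          rw [e]
          have e2 : @above K M.1 _ _ _ h _ ∅ = ∅ := by
            rw [Set.eq_empty_iff_forall_notMem]
            rintro 𝔓 ⟨-, h5⟩
            exact h5
          rw [e2]
          refine le_antisymm ?_ ?_
          · refine le_ciInf ?_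
            rintro ⟨W₀, hW₀⟩
            have : W₀ = ∅ := Finset.eq_empty_of_forall_notMem fun 𝔓 h => hW₀ 𝔓 h
            subst this
            simp [loc]
          · refine (locW_le ∅ ∅ (fun 𝔓 h => absurd h (Finset.notMem_empty 𝔓))).trans ?_
            simp [loc])
        rwa [mul_one] at h4)).1
      exact Summable.of_nonneg_of_le (fun M => (h3 M).1) (fun M => (h3 M).2) (hsum.mul_left C)
    refine (h1.div_const (Nat.card H : ℝ)).congr fun M => ?_
    rw [hw1]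
  · intro S hS r hr
    have h1 := (hmain (fun L => ∀ 𝔭 ∈ S, Unr K L 𝔭) (fun M => c M * r M)
      (fun M => hc M S hS (r M) (hr M))).2
    have e : ∑' M : Gal K (AlgebraicClosure K) H, w M.1 * r M =
        (∑' M : Gal K (AlgebraicClosure K) H,
          c M * r M * (((|discr K| : ℤ) : ℝ) ^ n / dsc M.1 ^ 2)) / Nat.card H := by
      rw [← tsum_div_const]
      refine tsum_congr fun M => ?_
      rw [hw1]
      ring
    rw [e]
    refine (h1.div_const (Nat.card H : ℝ)).congr' ?_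
    filter_upwards [eventually_gt_atTop (0 : ℝ)] with X hX
    rw [card_quot_congr (hset S X), ← quot_P (K := K) (Ω := AlgebraicClosure K) (H := H)
      (fun L => ∀ 𝔭 ∈ S, Unr K L 𝔭) (fun L L' e h 𝔭 h𝔭 => unr_iso e (h 𝔭 h𝔭)) _ (hfin X hX)]
    push_cast
    field_simp

end Pool.Agent.H419.MX
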