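import Pool.Agent.H419.MX.Stm
import Pool.Agent.H419.LT.LIMP
import Pool.Agent.H419.RM.DIV
import Pool.Agent.H419.RM.RAMA
import Pool.Agent.H419.RM.RAMB

/-! # The exact densities of the quadratic extensions unramified at given odd primes -/

set_option autoImplicit false

open NumberField Filter Topology
open Pool.Agent.TH444.ML Pool.Agent.H419.LT Pool.Agent.H419.RM Pool.Agent.TH626.J3090

namespace Pool.Agent.H419.MX.QSX

section

variable {M E : Type} [Field M] [NumberField M] [Field E] [Algebra M E] [IsAlgClosed E]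

/-- ramification is visible in the generator -/
theorem unr_iff {rep : ClassGroup (𝓞 M) → Ideal (𝓞 M)} (hrep : Rep M rep)
    {k : Ideal (𝓞 M) → 𝓞 M → ℕ} {Y : ℝ} {x : P M × 𝓞 M}
    (hx : x.2 ∈ S2 rep k Y x.1) {𝔓 : Ideal (𝓞 M)} (hP : 𝔓.IsPrime) (hP0 : 𝔓 ≠ ⊥)
    (h2 : (2 : 𝓞 M) ∉ 𝔓) :
    Unr M (fld E x) 𝔓 ↔ x.2 ∉ 𝔓 * (rep x.1.1) ^ 2 := by
  constructor
  · intro hU hmem
    obtain ⟨⟨hc, hS, hle⟩, hns⟩ := hx
    have hs := sr_sq E ((rr x.1 : 𝓞 M) * x.2)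
    have hns' := (notSq_iff hs).2 hns
    have hfr : Module.finrank M
        (IntermediateField.adjoin M {sr E ((rr x.1 : 𝓞 M) * x.2)}) = 2 :=
      (Pool.Agent.TH914.J3087.kumP M E rep hrep).2.2 _ _ hs hns'
    obtain ⟨hβ, 𝔡, h𝔡, hspan⟩ := (sqf_unit (rr x.1)).2 hS
    have hfin : FiniteDimensional M
        (IntermediateField.adjoin M {sr E ((rr x.1 : 𝓞 M) * x.2)}) :=
      FiniteDimensional.of_finrank_pos (by omega)
    have hnf : NumberField (IntermediateField.adjoin M {sr E ((rr x.1 : 𝓞 M) * x.2)}) :=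
      NumberField.of_module_finite M _
    have hsL : sr E ((rr x.1 : 𝓞 M) * x.2) ∈
        IntermediateField.adjoin M {sr E ((rr x.1 : 𝓞 M) * x.2)} :=
      IntermediateField.mem_adjoin_simple_self M _
    have h7 : Ideal.span {x.2} = 𝔡 * (rep x.1.1) ^ 2 := by
      rw [← hspan, Ideal.span_singleton_mul_left_unit (rr x.1).isUnit]
    have hc0 : (rep x.1.1) ^ 2 ≠ 0 := pow_ne_zero 2 (rep_ne_bot hrep x.1.1)
    have h8 : 𝔓 * (rep x.1.1) ^ 2 ∣ 𝔡 * (rep x.1.1) ^ 2 := by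
      rw [← h7, Ideal.dvd_iff_le, Ideal.span_singleton_le_iff_mem]
      exact hmem
    have hdvd : 𝔓 ∣ 𝔡 := (mul_dvd_mul_iff_right hc0).1 h8
    exact RAMA.t_RAMA M (IntermediateField.adjoin M {sr E ((rr x.1 : 𝓞 M) * x.2)}) ⟨_, hsL⟩
      ((rr x.1 : 𝓞 M) * x.2) 𝔡 (rep x.1.1) 𝔓 (Subtype.ext (by simpa using hs)) hβ h𝔡 hspan
      hP hP0 hdvd hU
  · intro hn
    by_contra hU
    exact hn (DIV.dvd_of (E := E) RAMB.t_RAMB hrep hx hP hP0 h2 hU)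

theorem wt_pos {k : Ideal (𝓞 M) → 𝓞 M → ℕ} (hk : IsK M k) {𝔠 : Ideal (𝓞 M)} (h𝔠 : 𝔠 ≠ ⊥)
    (β : 𝓞 M) : 0 < wt k 𝔠 β := by
  unfold wt
  have h1 : (1 : ℝ) ≤ k 𝔠 β := by exact_mod_cast hk.pos 𝔠 β h𝔠
  have hN : (0 : ℝ) < Ideal.absNorm 𝔠 := by
    have : Ideal.absNorm 𝔠 ≠ 0 := fun h => h𝔠 (Ideal.absNorm_eq_zero_iff.1 h)
    exact_mod_cast Nat.pos_of_ne_zero this
  positivity

/-- the set that is counted -/
def GG (rep : ClassGroup (𝓞 M) → Ideal (𝓞 M)) (k : Ideal (𝓞 M) → 𝓞 M → ℕ)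
    (W₀ : Finset (Ideal (𝓞 M))) (p : P M) (Y : ℝ) : Set (𝓞 M) :=
  {α : 𝓞 M | α ∈ cone M ∧ Sqf M (rep p.1) α ∧ (∀ 𝔓 ∈ W₀, α ∉ 𝔓 * (rep p.1) ^ 2) ∧
    nrm α ≤ Y * wt k (rep p.1) ((rr p : 𝓞 M) * α)}

theorem GG_sub {rep : ClassGroup (𝓞 M) → Ideal (𝓞 M)} {k : Ideal (𝓞 M) → 𝓞 M → ℕ}
    {W₀ : Finset (Ideal (𝓞 M))} {p : P M} {Y : ℝ} : GG rep k W₀ p Y ⊆ S1 rep k Y p :=
  fun _ h => ⟨h.1, h.2.1, h.2.2.2⟩

/-- the density of the set -/
theorem limGG (h : S_SQD) {rep : ClassGroup (𝓞 M) → Ideal (𝓞 M)} (hrep : Rep M rep)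
    {k : Ideal (𝓞 M) → 𝓞 M → ℕ} (hk : IsK M k) (p : P M) :
    ∃ c : ℝ, 0 ≤ c ∧ ∀ W₀ : Finset (Ideal (𝓞 M)), OddPrimes M W₀ →
      Tendsto (fun Y : ℝ => ((GG rep k W₀ p Y).ncard : ℝ) / Y) atTop (𝓝 (c * loc M W₀)) := by
  classical
  have h𝔠 := rep_ne_bot hrep p.1
  set 𝔠 := rep p.1 with h𝔠def
  set 𝔟 : Ideal (𝓞 M) := Ideal.span {(4 : 𝓞 M)} * 𝔠 ^ 2 with h𝔟
  have h𝔟0 : 𝔟 ≠ ⊥ := by
    refine mul_ne_zero ?_ (pow_ne_zero 2 h𝔠)
    rw [Ne, Ideal.zero_eq_bot, Ideal.span_singleton_eq_bot]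
    norm_num
  have hfinQ : Finite (𝓞 M ⧸ 𝔟) := Ring.HasFiniteQuotients.finiteQuotient h𝔟0
  have : Fintype (𝓞 M ⧸ 𝔟) := Fintype.ofFinite _
  choose D hD0 hD using fun a : 𝓞 M => h M 𝔠 h𝔠 a
  set a : (𝓞 M ⧸ 𝔟) → 𝓞 M := fun q => Quotient.out q with ha
  have ha1 : ∀ q : 𝓞 M ⧸ 𝔟, Ideal.Quotient.mk 𝔟 (a q) = q := fun q => Quotient.out_eq' q
  set w : (𝓞 M ⧸ 𝔟) → ℝ := fun q => wt k 𝔠 ((rr p : 𝓞 M) * a q) with hw
  have hw0 : ∀ q, 0 < w q := fun q => wt_pos hk h𝔠 _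
  have hwc : ∀ (q : 𝓞 M ⧸ 𝔟) (α : 𝓞 M), α - a q ∈ 𝔟 → wt k 𝔠 ((rr p : 𝓞 M) * α) = w q := by
    intro q α hα
    simp only [hw, wt]
    rw [hk.congr 𝔠 ((rr p : 𝓞 M) * α) ((rr p : 𝓞 M) * a q) h𝔠 (by
      rw [← mul_sub]
      exact Ideal.mul_mem_left _ _ hα)]
  refine ⟨∑ q, w q * D (a q), Finset.sum_nonneg fun q _ => mul_nonneg (hw0 q).le (hD0 _), ?_⟩
  intro W₀ hW₀
  -- the classes
  set F : (𝓞 M ⧸ 𝔟) → ℝ → Set (𝓞 M) := fun q Z => {α : 𝓞 M | α ∈ cone M ∧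
    α - a q ∈ Ideal.span {(4 : 𝓞 M)} * 𝔠 ^ 2 ∧ Sqf M 𝔠 α ∧ (∀ 𝔓 ∈ W₀, α ∉ 𝔓 * 𝔠 ^ 2) ∧
    nrm α ≤ Z} with hF
  have hlim : ∀ q : 𝓞 M ⧸ 𝔟, Tendsto (fun Y : ℝ => ((F q (Y * w q)).ncard : ℝ) / Y) atTop
      (𝓝 (w q * D (a q) * loc M W₀)) := by
    intro q
    have h1 : Tendsto (fun Y : ℝ => Y * w q) atTop atTop :=
      Tendsto.atTop_mul_const (hw0 q) tendsto_id
    have h2 := ((hD (a q) W₀ hW₀).comp h1).const_mul (w q)
    rw [← mul_assoc] at h2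
    refine h2.congr' ?_
    filter_upwards [eventually_gt_atTop (0 : ℝ)] with Y hY
    have h3 := hw0 q
    simp only [Function.comp_apply]
    show w q * (((F q (Y * w q)).ncard : ℝ) / (Y * w q)) = _
    field_simp
  have hsum := tendsto_finsetSum (Finset.univ : Finset (𝓞 M ⧸ 𝔟)) fun q _ => hlim q
  rw [← Finset.sum_mul] at hsum
  refine hsum.congr' ?_
  filter_upwards [eventually_gt_atTop (0 : ℝ)] with Y hY
  rw [← Finset.sum_div]
  congr 1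
  have hGf : (GG rep k W₀ p Y).Finite :=
    (S1_finite Pool.Agent.TH938.J3088.coneFacts hrep hk hY.le p).subset GG_sub
  have hmem : ∀ (q : 𝓞 M ⧸ 𝔟) (α : 𝓞 M),
      α ∈ F q (Y * w q) ↔ α ∈ GG rep k W₀ p Y ∧ Ideal.Quotient.mk 𝔟 α = q := by
    intro q α
    have e : α - a q ∈ 𝔟 ↔ Ideal.Quotient.mk 𝔟 α = q := by
      rw [← Ideal.Quotient.eq, ha1]
    constructor
    · rintro ⟨h1, h2, h3, h4, h5⟩
      refine ⟨⟨h1, h3, h4, ?_⟩, e.1 h2⟩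
      rw [← h𝔠def, hwc q α h2]
      exact h5
    · rintro ⟨⟨h1, h3, h4, h5⟩, h6⟩
      have h2 := e.2 h6
      rw [← h𝔠def, hwc q α h2] at h5
      exact ⟨h1, h2, h3, h4, h5⟩
  have hFf : ∀ q, (F q (Y * w q)).Finite := fun q =>
    hGf.subset fun α hα => ((hmem q α).1 hα).1
  have e1 : hGf.toFinset.card = ∑ q : 𝓞 M ⧸ 𝔟,
      (hGf.toFinset.filter fun α => Ideal.Quotient.mk 𝔟 α = q).card :=
    Finset.card_eq_sum_card_fiberwise (by
      intro x hx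
      exact Finset.mem_coe.2 (Finset.mem_univ _))
  have e2 : ∀ q : 𝓞 M ⧸ 𝔟,
      (hGf.toFinset.filter fun α => Ideal.Quotient.mk 𝔟 α = q).card =
        (F q (Y * w q)).ncard := by
    intro q
    rw [← Set.ncard_coe_finset]
    congr 1
    ext α
    rw [Finset.mem_coe, Finset.mem_filter, Set.Finite.mem_toFinset]
    exact (hmem q α).symm
  rw [Finset.sum_congr rfl fun q _ => e2 q, ← Set.ncard_eq_toFinset_card _ hGf] at e1
  rw [e1]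
  push_cast
  rfl

end

theorem t_QSX (h : S_SQD) : S_QSX := by
  classical
  intro M E _ _ _ _ _
  obtain ⟨rep, hrep⟩ := exists_rep M
  obtain ⟨k, hk⟩ := Pool.Agent.TH263.J3086.discQuad M
  have := finite_quot M
  have : Fintype (P M) := Fintype.ofFinite _
  have h2 := Pool.Agent.TH914.J3087.kumP
  have h3 := Pool.Agent.TH938.J3088.coneFacts
  choose c hc0 hc using fun p : P M => limGG h hrep hk p
  have hw : (0 : ℝ) < Units.torsionOrder M := by exact_mod_cast Units.torsionOrder_pos M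
  have hmain : ∀ W₀ : Finset (Ideal (𝓞 M)), OddPrimes M W₀ →
      Tendsto (fun Y : ℝ => (Set.ncard {L : IntermediateField M E | L ∈ QS M E Y ∧
        ∀ 𝔓 ∈ W₀, Unr M L 𝔓} : ℝ) / Y) atTop
        (𝓝 ((∑ p : P M, c p) / Units.torsionOrder M * loc M W₀)) := by
    intro W₀ hW₀
    set T : IntermediateField M E → Prop := fun L => ∀ 𝔓 ∈ W₀, Unr M L 𝔓 with hT
    have hlim2 : ∀ p : P M, Tendsto (fun Y : ℝ => ((LIMP.S2T T rep k Y p).ncard : ℝ) / Y) atTop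
        (𝓝 (c p * loc M W₀)) := by
      intro p
      have h5 : Tendsto (fun Y : ℝ => ((GG rep k W₀ p Y ∩ (S3 rep p)).ncard : ℝ) / Y) atTop
          (𝓝 0) := by
        have h6 : Tendsto (fun Y : ℝ => ((S3 rep p).ncard : ℝ) / Y) atTop (𝓝 0) :=
          tendsto_const_nhds.div_atTop tendsto_id
        refine squeeze_zero' ?_ ?_ h6
        · filter_upwards [eventually_gt_atTop (0 : ℝ)] with Y hY
          positivity
        · filter_upwards [eventually_gt_atTop (0 : ℝ)] with Y hY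
          refine div_le_div_of_nonneg_right ?_ hY.le
          exact_mod_cast Set.ncard_le_ncard Set.inter_subset_right (S3_finite h3 hrep p)
      have h7 := (hc p W₀ hW₀).sub h5
      rw [sub_zero] at h7
      refine h7.congr' ?_
      filter_upwards [eventually_gt_atTop (0 : ℝ)] with Y hY
      rw [← sub_div]
      congr 1
      have hf : (GG rep k W₀ p Y).Finite := (S1_finite h3 hrep hk hY.le p).subset GG_sub
      have h8 : LIMP.S2T T rep k Y p = GG rep k W₀ p Y \ S3 rep p := by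
        ext α
        constructor
        · rintro ⟨h9, h11⟩
          refine ⟨⟨h9.1.1, h9.1.2.1, ?_, h9.1.2.2⟩, fun h12 => h9.2 h12.2.2⟩
          intro 𝔓 h𝔓
          obtain ⟨hP, hP0, h2P⟩ := hW₀ 𝔓 h𝔓
          exact (unr_iff (E := E) hrep (x := (p, α)) h9 hP hP0 h2P).1 (h11 𝔓 h𝔓)
        · rintro ⟨h9, h10⟩
          have h13 : α ∈ S2 rep k Y p :=
            ⟨⟨h9.1, h9.2.1, h9.2.2.2⟩, fun h12 => h10 ⟨h9.1, h9.2.1, h12⟩⟩
          refine ⟨h13, ?_⟩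
          intro 𝔓 h𝔓
          obtain ⟨hP, hP0, h2P⟩ := hW₀ 𝔓 h𝔓
          exact (unr_iff (E := E) hrep (x := (p, α)) h13 hP hP0 h2P).2 (h9.2.2.1 𝔓 h𝔓)
      have h11 := Set.ncard_inter_add_ncard_sdiff_eq_ncard (GG rep k W₀ p Y) (S3 rep p) hf
      have h12 : ((GG rep k W₀ p Y).ncard : ℝ) = ((GG rep k W₀ p Y ∩ S3 rep p).ncard : ℝ) +
          ((GG rep k W₀ p Y \ S3 rep p).ncard : ℝ) := by
        exact_mod_cast h11.symm
      rw [h8, h12]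
      ring
    have hsum := tendsto_finsetSum (Finset.univ : Finset (P M)) fun p _ => hlim2 p
    rw [← Finset.sum_mul] at hsum
    have h14 := hsum.div_const (Units.torsionOrder M : ℝ)
    rw [mul_div_right_comm] at h14
    refine h14.congr' ?_
    filter_upwards [eventually_gt_atTop (0 : ℝ)] with Y hY
    have h12 := LIMP.countT T h2 h3 hrep hk hY.le
    have h13 : ({L : IntermediateField M E | L ∈ QS M E Y ∧ T L}.ncard : ℝ) *
        Units.torsionOrder M = ∑ p : P M, ((LIMP.S2T T rep k Y p).ncard : ℝ) := by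
      exact_mod_cast h12
    rw [← Finset.sum_div, ← h13, div_right_comm, mul_div_cancel_right₀ _ hw.ne']
  refine ⟨(∑ p : P M, c p) / Units.torsionOrder M, ?_, hmain⟩
  have hnn : 0 ≤ (∑ p : P M, c p) / (Units.torsionOrder M : ℝ) :=
    div_nonneg (Finset.sum_nonneg fun p _ => hc0 p) hw.le
  refine lt_of_le_of_ne hnn fun h0 => ?_
  have h15 := hmain ∅ (fun 𝔓 h𝔓 => absurd h𝔓 (Finset.notMem_empty 𝔓))
  rw [← h0, zero_mul] at h15
  apply quadPos M E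
  refine h15.congr fun Y => ?_
  have e : {L : IntermediateField M E | L ∈ QS M E Y ∧
      ∀ 𝔓 ∈ (∅ : Finset (Ideal (𝓞 M))), Unr M L 𝔓} = QS M E Y := by
    ext L
    simp
  rw [e]

end Pool.Agent.H419.MX.QSX
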