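import Pool.Agent.H419.MX.Main

/-! # Splitting the counts of the extensions with group `C₂ ≀ H` -/

set_option autoImplicit false
set_option linter.unusedSectionVars false
set_option maxHeartbeats 400000

open NumberField Filter Topology
open Pool.Agent.TH444.ML Pool.Agent.H419.LT Pool.Agent.H419.RM

namespace Pool.Agent.H419.MX

theorem split_count (K : Type) [Field K] [NumberField K] (H : Type) [Group H]
    [Finite H] (h2 : 2 ≤ Nat.card H) (s : ℝ) (hs : s < 3 / 2)
    (hsum : Summable (fun M : Gal K (AlgebraicClosure K) H => (dsc M.1) ^ (-s))) {n : ℕ}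
    (G : Subgroup (Equiv.Perm (Fin n))) (hG : IsC2Wr H G)
    (P Q : IntermediateField K (AlgebraicClosure K) → Prop)
    (hP : ∀ L L' : IntermediateField K (AlgebraicClosure K), (L ≃ₐ[K] L') → P L → P L')
    (hQ : ∀ L L' : IntermediateField K (AlgebraicClosure K), (L ≃ₐ[K] L') → Q L → Q L')
    (X : ℝ) (hX : 0 < X) :
    Nat.card (Quot (fun L L' : {L : IntermediateField K (AlgebraicClosure K) |
        L ∈ Cnt K G X ∧ P L} => Nonempty (L.1 ≃ₐ[K] L'.1))) =
      Nat.card (Quot (fun L L' : {L : IntermediateField K (AlgebraicClosure K) |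
        L ∈ Cnt K G X ∧ (P L ∧ Q L)} => Nonempty (L.1 ≃ₐ[K] L'.1))) +
      Nat.card (Quot (fun L L' : {L : IntermediateField K (AlgebraicClosure K) |
        L ∈ Cnt K G X ∧ (P L ∧ ¬ Q L)} => Nonempty (L.1 ≃ₐ[K] L'.1))) := by
  have hd : 0 < ((|discr K| : ℤ) : ℝ) ^ n := by
    have : (0 : ℤ) < |discr K| := abs_pos.2 (discr_ne_zero K)
    have : (0 : ℝ) < ((|discr K| : ℤ) : ℝ) := by exact_mod_cast this
    positivity
  obtain ⟨C, hC0, hfin, -⟩ := mainX (K := K) (Ω := AlgebraicClosure K) (H := H) h2 s hs hsum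
    _ hd
  have hf := hfin X hX
  have hset : ∀ R : IntermediateField K (AlgebraicClosure K) → Prop,
      {L : IntermediateField K (AlgebraicClosure K) | L ∈ Cnt K G X ∧ R L} =
      {L : IntermediateField K (AlgebraicClosure K) |
      L ∈ TT K (AlgebraicClosure K) H (X * ((|discr K| : ℤ) : ℝ) ^ n) ∧ R L} := by
    intro R
    rw [cnt_eq K hG]
  have hPQ : ∀ L L' : IntermediateField K (AlgebraicClosure K), (L ≃ₐ[K] L') →
      (P L ∧ Q L) → (P L' ∧ Q L') := fun L L' e h => ⟨hP L L' e h.1, hQ L L' e h.2⟩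
  have hPQ' : ∀ L L' : IntermediateField K (AlgebraicClosure K), (L ≃ₐ[K] L') →
      (P L ∧ ¬ Q L) → (P L' ∧ ¬ Q L') := fun L L' e h =>
    ⟨hP L L' e h.1, fun h' => h.2 (hQ L' L e.symm h')⟩
  have e1 := quot_P (K := K) (Ω := AlgebraicClosure K) (H := H) P hP _ hf
  have e2 := quot_P (K := K) (Ω := AlgebraicClosure K) (H := H) _ hPQ _ hf
  have e3 := quot_P (K := K) (Ω := AlgebraicClosure K) (H := H) _ hPQ' _ hf
  have hpos : 0 < Nat.card H := by omega
  refine Nat.eq_of_mul_eq_mul_right hpos ?_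
  rw [add_mul, card_quot_congr (hset P), card_quot_congr (hset fun L => P L ∧ Q L),
    card_quot_congr (hset fun L => P L ∧ ¬ Q L), e1, e2, e3]
  rw [← Set.ncard_union_eq ?_ (hf.subset fun L h => h.1) (hf.subset fun L h => h.1)]
  · congr 1
    ext L
    constructor
    · rintro ⟨h3, h4⟩
      by_cases h5 : Q L
      · exact Or.inl ⟨h3, h4, h5⟩
      · exact Or.inr ⟨h3, h4, h5⟩
    · rintro (⟨h3, h4, -⟩ | ⟨h3, h4, -⟩)
      · exact ⟨h3, h4⟩
      · exact ⟨h3, h4⟩
  · rw [Set.disjoint_left]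
    rintro L ⟨-, -, h3⟩ ⟨-, -, h4⟩
    exact h4 h3

end Pool.Agent.H419.MX
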