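import Pool.Agent.H419.MX.Stm
import Pool.Agent.H419.RM.CEX
import Pool.Agent.H419.RM.CUB
import Pool.Graph.R_seed8.TH858.J3094
import Pool.Graph.R_seed8.TH938.J3088

/-! # Exact densities of the elements of the cone with squarefree part prime to given odd primes

Proved by helper799 for helper419. -/

set_option autoImplicit false

open NumberField Filter Topology
open Pool.Agent.TH444.ML Pool.Agent.H419.LT Pool.Agent.H419.RM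
open Pool.Agent.TH858.J3094 (NZ summable_inv_sq norm_pos)

namespace Pool.Agent.H419.MX.SQD

section

variable {M : Type} [Field M] [NumberField M]

/-- the number of the elements of the cone with the property `P` and norm at most `Z` -/
noncomputable def cnt (P : 𝓞 M → Prop) (Z : ℝ) : ℝ :=
  (Set.ncard {α : 𝓞 M | α ∈ cone M ∧ P α ∧ nrm α ≤ Z} : ℝ)

lemma finP (P : 𝓞 M → Prop) (Z : ℝ) : {α : 𝓞 M | α ∈ cone M ∧ P α ∧ nrm α ≤ Z}.Finite :=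
  ((Pool.Agent.TH938.J3088.coneFacts M).1 Z).subset fun _ h => ⟨h.1, h.2.2⟩

lemma cone_ne (α : 𝓞 M) (h : α ∈ cone M) : α ≠ 0 := (Pool.Agent.TH938.J3088.coneFacts M).2.1 α h

lemma cnt_nonneg (P : 𝓞 M → Prop) (Z : ℝ) : 0 ≤ cnt P Z := Nat.cast_nonneg _

lemma cnt_congr {P Q : 𝓞 M → Prop} (h : ∀ α, α ∈ cone M → (P α ↔ Q α)) (Z : ℝ) :
    cnt P Z = cnt Q Z := by
  unfold cnt
  congr 2
  ext α
  constructor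
  · rintro ⟨h1, h2, h3⟩
    exact ⟨h1, (h α h1).1 h2, h3⟩
  · rintro ⟨h1, h2, h3⟩
    exact ⟨h1, (h α h1).2 h2, h3⟩

lemma cnt_mono {P Q : 𝓞 M → Prop} (h : ∀ α, α ∈ cone M → P α → Q α) (Z : ℝ) :
    cnt P Z ≤ cnt Q Z := by
  unfold cnt
  have h1 : {α : 𝓞 M | α ∈ cone M ∧ P α ∧ nrm α ≤ Z} ⊆
      {α : 𝓞 M | α ∈ cone M ∧ Q α ∧ nrm α ≤ Z} :=
    fun α hα => ⟨hα.1, h α hα.1 hα.2.1, hα.2.2⟩
  exact_mod_cast Set.ncard_le_ncard h1 (finP Q Z)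

lemma cnt_split (P R : 𝓞 M → Prop) (Z : ℝ) :
    cnt P Z = cnt (fun α => P α ∧ R α) Z + cnt (fun α => P α ∧ ¬ R α) Z := by
  unfold cnt
  have h1 : {α : 𝓞 M | α ∈ cone M ∧ P α ∧ nrm α ≤ Z} =
      {α : 𝓞 M | α ∈ cone M ∧ (P α ∧ R α) ∧ nrm α ≤ Z} ∪
      {α : 𝓞 M | α ∈ cone M ∧ (P α ∧ ¬ R α) ∧ nrm α ≤ Z} := by
    ext α
    constructor
    · rintro ⟨h1, h2, h3⟩
      by_cases h : R α
      · exact Or.inl ⟨h1, ⟨h2, h⟩, h3⟩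
      · exact Or.inr ⟨h1, ⟨h2, h⟩, h3⟩
    · rintro (⟨h1, h2, h3⟩ | ⟨h1, h2, h3⟩)
      · exact ⟨h1, h2.1, h3⟩
      · exact ⟨h1, h2.1, h3⟩
  have h2 : Disjoint {α : 𝓞 M | α ∈ cone M ∧ (P α ∧ R α) ∧ nrm α ≤ Z}
      {α : 𝓞 M | α ∈ cone M ∧ (P α ∧ ¬ R α) ∧ nrm α ≤ Z} := by
    rw [Set.disjoint_left]
    rintro α ⟨-, h3, -⟩ ⟨-, h4, -⟩
    exact h4.2 h3.2
  rw [h1, Set.ncard_union_eq h2 (finP _ Z) (finP _ Z)]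
  push_cast
  ring

lemma cnt_near {P Q T : 𝓞 M → Prop} (h1 : ∀ α, α ∈ cone M → P α → Q α)
    (h2 : ∀ α, α ∈ cone M → Q α → ¬ P α → T α) (Z : ℝ) : |cnt P Z - cnt Q Z| ≤ cnt T Z := by
  have e1 := cnt_split Q P Z
  have e2 : cnt (fun α => Q α ∧ P α) Z = cnt P Z :=
    cnt_congr (fun α hα => ⟨fun h => h.2, fun h => ⟨h1 α hα h, h⟩⟩) Z
  have e3 : cnt (fun α => Q α ∧ ¬ P α) Z ≤ cnt T Z :=
    cnt_mono (fun α hα h => h2 α hα h.1 h.2) Z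
  have e4 := cnt_nonneg (fun α => Q α ∧ ¬ P α) Z
  rw [e2] at e1
  rw [abs_le]
  constructor <;> linarith

/-! ### ideals -/

lemma mem_iff_dvd (I : Ideal (𝓞 M)) (α : 𝓞 M) : α ∈ I ↔ I ∣ Ideal.span {α} :=
  Ideal.dvd_span_singleton.symm

lemma mem_coprime {I J K : Ideal (𝓞 M)} (h : IsCoprime I J) (hK : K ≠ ⊥) (α : 𝓞 M) :
    (α ∈ I * K ∧ α ∈ J * K) ↔ α ∈ I * J * K := by
  rw [mem_iff_dvd, mem_iff_dvd, mem_iff_dvd]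
  constructor
  · rintro ⟨h1, h2⟩
    obtain ⟨L, hL⟩ : K ∣ Ideal.span {α} := (dvd_mul_left K I).trans h1
    rw [hL, mul_comm K L] at h1 h2
    rw [hL, mul_comm K L]
    have h3 : I ∣ L := (mul_dvd_mul_iff_right hK).1 h1
    have h4 : J ∣ L := (mul_dvd_mul_iff_right hK).1 h2
    exact mul_dvd_mul_right (h.mul_dvd h3 h4) K
  · intro h1
    exact ⟨(mul_dvd_mul_right (dvd_mul_right I J) K).trans h1,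
      (mul_dvd_mul_right (dvd_mul_left J I) K).trans h1⟩

/-- odd primes -/
def OddP (Q : Ideal (𝓞 M)) : Prop := Q.IsPrime ∧ Q ≠ ⊥ ∧ (2 : 𝓞 M) ∉ Q

lemma OddP.max {Q : Ideal (𝓞 M)} (h : OddP Q) : Q.IsMaximal := h.1.isMaximal h.2.1

lemma OddP.coprime4 {Q : Ideal (𝓞 M)} (h : OddP Q) :
    IsCoprime (Ideal.span {(4 : 𝓞 M)}) Q := by
  rw [Ideal.isCoprime_iff_sup_eq]
  by_contra hne
  have h1 : Q = Ideal.span {(4 : 𝓞 M)} ⊔ Q := h.max.eq_of_le hne le_sup_right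
  have h2 : (4 : 𝓞 M) ∈ Q := by
    rw [h1]
    exact Ideal.mem_sup_left (Ideal.mem_span_singleton_self _)
  have h3 : (2 : 𝓞 M) * 2 ∈ Q := by
    have : (2 : 𝓞 M) * 2 = 4 := by norm_num
    rwa [this]
  rcases h.1.mem_or_mem h3 with h4 | h4
  · exact h.2.2 h4
  · exact h.2.2 h4

lemma OddP.coprime {Q Q' : Ideal (𝓞 M)} (h : OddP Q) (h' : OddP Q') (hne : Q ≠ Q') :
    IsCoprime Q Q' := by
  have := h.max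
  have := h'.max
  exact Ideal.isCoprime_of_isMaximal hne

lemma four_ne : (Ideal.span {(4 : 𝓞 M)}) ≠ ⊥ := by
  rw [Ne, Ideal.span_singleton_eq_bot]
  norm_num

lemma absNorm_pos {I : Ideal (𝓞 M)} (h : I ≠ ⊥) : (0 : ℝ) < Ideal.absNorm I := by
  have h1 : Ideal.absNorm I ≠ 0 := by
    rw [Ne, Ideal.absNorm_eq_zero_iff]; exact h
  exact_mod_cast Nat.pos_of_ne_zero h1

/-- CLAIM A -/
theorem claimA {c : ℝ} (hc : ∀ 𝔟 : Ideal (𝓞 M), 𝔟 ≠ ⊥ → ∀ a : 𝓞 M,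
      Tendsto (fun Z : ℝ => cnt (fun α => α - a ∈ 𝔟) Z / Z) atTop (𝓝 (c / Ideal.absNorm 𝔟)))
    (𝔠 : Ideal (𝓞 M)) (h𝔠 : 𝔠 ≠ ⊥) (a : 𝓞 M) (ha : a ∈ 𝔠 ^ 2) (e : Ideal (𝓞 M) → ℕ)
    (S : Finset (Ideal (𝓞 M))) : (∀ Q ∈ S, OddP Q) → ∀ 𝔤 : Ideal (𝓞 M), 𝔤 ≠ ⊥ →
    IsCoprime (Ideal.span {(4 : 𝓞 M)}) 𝔤 → (∀ Q ∈ S, IsCoprime Q 𝔤) →
    Tendsto (fun Z : ℝ => cnt (fun α => (α - a ∈ Ideal.span {(4 : 𝓞 M)} * 𝔠 ^ 2 ∧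
      α ∈ 𝔤 * 𝔠 ^ 2) ∧ ∀ Q ∈ S, α ∉ Q ^ (e Q) * 𝔠 ^ 2) Z / Z) atTop
      (𝓝 (c / Ideal.absNorm (Ideal.span {(4 : 𝓞 M)} * 𝔤 * 𝔠 ^ 2) *
        ∏ Q ∈ S, (1 - 1 / (Ideal.absNorm Q : ℝ) ^ (e Q)))) := by
  classical
  have hc2 : 𝔠 ^ 2 ≠ ⊥ := pow_ne_zero 2 h𝔠
  induction S using Finset.induction_on with
  | empty =>
    intro _ 𝔤 h𝔤 hcop _
    obtain ⟨x, hx, y, hy, hxy⟩ : ∃ x ∈ Ideal.span {(4 : 𝓞 M)} * 𝔠 ^ 2, ∃ y ∈ 𝔤 * 𝔠 ^ 2,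
        x + y = a := by
      have h1 : a ∈ (Ideal.span {(4 : 𝓞 M)} ⊔ 𝔤) * 𝔠 ^ 2 := by
        rw [Ideal.isCoprime_iff_sup_eq.1 hcop, Ideal.top_mul]
        exact ha
      rw [Ideal.sup_mul] at h1
      exact Submodule.mem_sup.1 h1
    have h2 := hc (Ideal.span {(4 : 𝓞 M)} * 𝔤 * 𝔠 ^ 2)
      (mul_ne_zero (mul_ne_zero four_ne h𝔤) hc2) y
    rw [Finset.prod_empty, mul_one]
    refine h2.congr fun Z => ?_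
    congr 1
    refine cnt_congr (fun α _ => ?_) Z
    rw [← mem_coprime hcop hc2]
    constructor
    · rintro ⟨h3, h4⟩
      refine ⟨⟨?_, ?_⟩, fun Q hQ => absurd hQ (Finset.notMem_empty Q)⟩
      · have : α - a = (α - y) - x := by rw [← hxy]; ring
        rw [this]
        exact Ideal.sub_mem _ h3 hx
      · have : α = (α - y) + y := by ring
        rw [this]
        exact Ideal.add_mem _ h4 hy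
    · rintro ⟨⟨h3, h4⟩, -⟩
      refine ⟨?_, Ideal.sub_mem _ h4 hy⟩
      have : α - y = (α - a) + x := by rw [← hxy]; ring
      rw [this]
      exact Ideal.add_mem _ h3 hx
  | insert Q₀ S hQ₀ ih =>
    intro hS 𝔤 h𝔤 hcop hcopS
    have hQ₀' : OddP Q₀ := hS Q₀ (Finset.mem_insert_self _ _)
    have hS' : ∀ Q ∈ S, OddP Q := fun Q hQ => hS Q (Finset.mem_insert_of_mem hQ)
    have h1 := ih hS' 𝔤 h𝔤 hcop (fun Q hQ => hcopS Q (Finset.mem_insert_of_mem hQ))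
    have h2 := ih hS' (Q₀ ^ (e Q₀) * 𝔤) (mul_ne_zero (pow_ne_zero _ hQ₀'.2.1) h𝔤)
      (IsCoprime.mul_right (hQ₀'.coprime4.pow_right) hcop)
      (fun Q hQ => IsCoprime.mul_right
        (((hS' Q hQ).coprime hQ₀' (fun h => hQ₀ (h ▸ hQ))).pow_right)
        (hcopS Q (Finset.mem_insert_of_mem hQ)))
    have h3 := h1.sub h2
    have hcop0 : IsCoprime (Q₀ ^ (e Q₀)) 𝔤 :=
      (hcopS Q₀ (Finset.mem_insert_self _ _)).pow_left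
    have hN : (Ideal.absNorm (Ideal.span {(4 : 𝓞 M)} * (Q₀ ^ (e Q₀) * 𝔤) * 𝔠 ^ 2) : ℝ) =
        (Ideal.absNorm Q₀ : ℝ) ^ (e Q₀) *
          Ideal.absNorm (Ideal.span {(4 : 𝓞 M)} * 𝔤 * 𝔠 ^ 2) := by
      simp only [map_mul, map_pow]
      push_cast
      ring
    have hq0 := absNorm_pos hQ₀'.2.1
    have hn0 := absNorm_pos (mul_ne_zero (mul_ne_zero (four_ne (M := M)) h𝔤) hc2)
    have hlim : c / Ideal.absNorm (Ideal.span {(4 : 𝓞 M)} * 𝔤 * 𝔠 ^ 2) *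
        (∏ Q ∈ S, (1 - 1 / (Ideal.absNorm Q : ℝ) ^ (e Q))) -
        c / Ideal.absNorm (Ideal.span {(4 : 𝓞 M)} * (Q₀ ^ (e Q₀) * 𝔤) * 𝔠 ^ 2) *
        (∏ Q ∈ S, (1 - 1 / (Ideal.absNorm Q : ℝ) ^ (e Q))) =
        c / Ideal.absNorm (Ideal.span {(4 : 𝓞 M)} * 𝔤 * 𝔠 ^ 2) *
        (∏ Q ∈ insert Q₀ S, (1 - 1 / (Ideal.absNorm Q : ℝ) ^ (e Q))) := by
      rw [Finset.prod_insert hQ₀, hN]
      field_simp
    rw [hlim] at h3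
    refine h3.congr fun Z => ?_
    rw [← sub_div]
    congr 1
    have e1 := cnt_split (fun α : 𝓞 M => (α - a ∈ Ideal.span {(4 : 𝓞 M)} * 𝔠 ^ 2 ∧
      α ∈ 𝔤 * 𝔠 ^ 2) ∧ ∀ Q ∈ S, α ∉ Q ^ (e Q) * 𝔠 ^ 2) (fun α => α ∈ Q₀ ^ (e Q₀) * 𝔠 ^ 2) Z
    have e2 : cnt (fun α : 𝓞 M => ((α - a ∈ Ideal.span {(4 : 𝓞 M)} * 𝔠 ^ 2 ∧
        α ∈ 𝔤 * 𝔠 ^ 2) ∧ ∀ Q ∈ S, α ∉ Q ^ (e Q) * 𝔠 ^ 2) ∧ α ∈ Q₀ ^ (e Q₀) * 𝔠 ^ 2) Z =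
        cnt (fun α : 𝓞 M => (α - a ∈ Ideal.span {(4 : 𝓞 M)} * 𝔠 ^ 2 ∧
        α ∈ Q₀ ^ (e Q₀) * 𝔤 * 𝔠 ^ 2) ∧ ∀ Q ∈ S, α ∉ Q ^ (e Q) * 𝔠 ^ 2) Z := by
      refine cnt_congr (fun α _ => ?_) Z
      rw [← mem_coprime hcop0 hc2]
      constructor
      · rintro ⟨⟨⟨h4, h5⟩, h6⟩, h7⟩
        exact ⟨⟨h4, h7, h5⟩, h6⟩
      · rintro ⟨⟨h4, h7, h5⟩, h6⟩
        exact ⟨⟨⟨h4, h5⟩, h6⟩, h7⟩
    have e3 : cnt (fun α : 𝓞 M => ((α - a ∈ Ideal.span {(4 : 𝓞 M)} * 𝔠 ^ 2 ∧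
        α ∈ 𝔤 * 𝔠 ^ 2) ∧ ∀ Q ∈ S, α ∉ Q ^ (e Q) * 𝔠 ^ 2) ∧ ¬ α ∈ Q₀ ^ (e Q₀) * 𝔠 ^ 2) Z =
        cnt (fun α : 𝓞 M => (α - a ∈ Ideal.span {(4 : 𝓞 M)} * 𝔠 ^ 2 ∧
        α ∈ 𝔤 * 𝔠 ^ 2) ∧ ∀ Q ∈ insert Q₀ S, α ∉ Q ^ (e Q) * 𝔠 ^ 2) Z := by
      refine cnt_congr (fun α _ => ?_) Z
      constructor
      · rintro ⟨⟨h4, h6⟩, h7⟩
        refine ⟨h4, fun Q hQ => ?_⟩
        rcases Finset.mem_insert.1 hQ with rfl | h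
        · exact h7
        · exact h6 Q h
      · rintro ⟨h4, h6⟩
        exact ⟨⟨h4, fun Q hQ => h6 Q (Finset.mem_insert_of_mem hQ)⟩,
          h6 Q₀ (Finset.mem_insert_self _ _)⟩
    rw [e2, e3] at e1
    linarith

open Classical in
/-- CLAIM B -/
theorem claimB {C : ℝ} (hC0 : 0 < C) (hC : ∀ 𝔟 : Ideal (𝓞 M), 𝔟 ≠ ⊥ → ∀ Z : ℝ, 0 ≤ Z →
      cnt (fun α => α ∈ 𝔟) Z ≤ C * Z / Ideal.absNorm 𝔟)
    (𝔠 : Ideal (𝓞 M)) (h𝔠 : 𝔠 ≠ ⊥) (ε : ℝ) (hε : 0 < ε) :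
    ∃ S : Finset (Ideal (𝓞 M)), (∀ Q ∈ S, OddP Q) ∧ ∀ Z : ℝ, 0 ≤ Z →
      cnt (fun α => ∃ Q, OddP Q ∧ Q ∉ S ∧ α ∈ Q ^ 2 * 𝔠 ^ 2) Z ≤ ε * Z := by
  obtain ⟨s, hs'⟩ := summable_iff_vanishing_norm.1 (summable_inv_sq M) (ε / C) (by positivity)
  set S : Finset (Ideal (𝓞 M)) := (s.image (fun 𝔓 => 𝔓.1)).filter (fun Q => OddP Q) with hS
  refine ⟨S, fun Q hQ => (Finset.mem_filter.1 hQ).2, fun Z hZ => ?_⟩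
  set T := {α : 𝓞 M | α ∈ cone M ∧ (∃ Q, OddP Q ∧ Q ∉ S ∧ α ∈ Q ^ 2 * 𝔠 ^ 2) ∧ nrm α ≤ Z} with hT
  have hTf : T.Finite := finP _ Z
  have hex : ∀ α ∈ T, ∃ Q, OddP Q ∧ Q ∉ S ∧ α ∈ Q ^ 2 * 𝔠 ^ 2 := fun α hα => hα.2.1
  choose p hp1 hp2 hp3 using hex
  set F : Finset (NZ M) := hTf.toFinset.attach.image
    (fun α => ⟨p α.1 (hTf.mem_toFinset.1 α.2), (hp1 _ _).2.1⟩) with hF
  have hFs : Disjoint F s := by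
    rw [Finset.disjoint_left]
    intro 𝔓 h1 h2
    obtain ⟨⟨α, hα'⟩, -, rfl⟩ := Finset.mem_image.1 h1
    have hα := hTf.mem_toFinset.1 hα'
    apply hp2 α hα
    rw [hS, Finset.mem_filter]
    exact ⟨Finset.mem_image.2 ⟨_, h2, rfl⟩, hp1 α hα⟩
  have h1 : T ⊆ ⋃ 𝔓 ∈ F, {α : 𝓞 M | α ∈ cone M ∧ α ∈ 𝔓.1 ^ 2 * 𝔠 ^ 2 ∧ nrm α ≤ Z} := by
    intro α hα
    rw [Set.mem_iUnion₂]
    exact ⟨⟨p α hα, (hp1 _ _).2.1⟩,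
      Finset.mem_image.2 ⟨⟨α, hTf.mem_toFinset.2 hα⟩, Finset.mem_attach _ _, rfl⟩,
      hα.1, hp3 α hα, hα.2.2⟩
  have h2 : (⋃ 𝔓 ∈ F, {α : 𝓞 M | α ∈ cone M ∧ α ∈ 𝔓.1 ^ 2 * 𝔠 ^ 2 ∧ nrm α ≤ Z}).Finite :=
    Set.Finite.biUnion (Finset.finite_toSet _) fun 𝔓 _ => finP (fun α => α ∈ 𝔓.1 ^ 2 * 𝔠 ^ 2) Z
  have h3 : (T.ncard : ℝ) ≤ ∑ 𝔓 ∈ F, cnt (fun α => α ∈ 𝔓.1 ^ 2 * 𝔠 ^ 2) Z := by
    have h4 := Set.ncard_le_ncard h1 h2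
    have h5 := Finset.set_ncard_biUnion_le F
      (fun 𝔓 : NZ M => {α : 𝓞 M | α ∈ cone M ∧ α ∈ 𝔓.1 ^ 2 * 𝔠 ^ 2 ∧ nrm α ≤ Z})
    unfold cnt
    exact_mod_cast h4.trans h5
  have h4 : ∑ 𝔓 ∈ F, cnt (fun α => α ∈ 𝔓.1 ^ 2 * 𝔠 ^ 2) Z ≤
      ∑ 𝔓 ∈ F, C * Z * (1 / (Ideal.absNorm 𝔓.1 : ℝ) ^ 2) := by
    refine Finset.sum_le_sum fun 𝔓 _ => ?_
    refine (hC (𝔓.1 ^ 2 * 𝔠 ^ 2) (mul_ne_zero (pow_ne_zero 2 𝔓.2) (pow_ne_zero 2 h𝔠)) Z hZ).trans ?_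
    have e1 : (Ideal.absNorm (𝔓.1 ^ 2 * 𝔠 ^ 2) : ℝ) =
        (Ideal.absNorm 𝔓.1 : ℝ) ^ 2 * (Ideal.absNorm 𝔠 : ℝ) ^ 2 := by
      simp only [map_mul, map_pow]
      push_cast
      ring
    have e2 : (1 : ℝ) ≤ (Ideal.absNorm 𝔠 : ℝ) := norm_pos M ⟨𝔠, h𝔠⟩
    have e3 := absNorm_pos 𝔓.2
    rw [e1, mul_one_div]
    have e4 : (Ideal.absNorm 𝔓.1 : ℝ) ^ 2 ≤
        (Ideal.absNorm 𝔓.1 : ℝ) ^ 2 * (Ideal.absNorm 𝔠 : ℝ) ^ 2 := by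
      have : (1 : ℝ) ≤ (Ideal.absNorm 𝔠 : ℝ) ^ 2 := one_le_pow₀ e2
      exact le_mul_of_one_le_right (by positivity) this
    exact div_le_div_of_nonneg_left (by positivity) (by positivity) e4
  have h5 := hs' F hFs
  rw [Real.norm_eq_abs, abs_of_nonneg (Finset.sum_nonneg fun _ _ => by positivity)] at h5
  rw [← Finset.mul_sum] at h4
  refine (h3.trans h4).trans ?_
  calc C * Z * ∑ 𝔓 ∈ F, (1 / (Ideal.absNorm 𝔓.1 : ℝ) ^ 2)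
      ≤ C * Z * (ε / C) := mul_le_mul_of_nonneg_left h5.le (by positivity)
    _ = ε * Z := by field_simp

/-- the squarefree condition in terms of primes -/
lemma sqf_iff {𝔠 : Ideal (𝓞 M)} (h𝔠 : 𝔠 ≠ ⊥) {α : 𝓞 M} (hα0 : α ≠ 0) (hα : α ∈ 𝔠 ^ 2) :
    Sqf M 𝔠 α ↔ ∀ Q : Ideal (𝓞 M), Q.IsPrime → Q ≠ ⊥ → α ∉ Q ^ 2 * 𝔠 ^ 2 := by
  have hc2 : 𝔠 ^ 2 ≠ ⊥ := pow_ne_zero 2 h𝔠
  constructor
  · rintro ⟨-, 𝔡, hd, he⟩ Q hQ _ hmem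
    rw [mem_iff_dvd, he] at hmem
    have h1 : Q ^ 2 ∣ 𝔡 := (mul_dvd_mul_iff_right hc2).1 hmem
    rw [pow_two] at h1
    have h2 : IsUnit Q := hd Q h1
    have h3 : Q = 1 := by simpa using h2
    exact hQ.ne_top (by rw [h3, Ideal.one_eq_top])
  · intro h
    refine ⟨hα0, ?_⟩
    rw [mem_iff_dvd] at hα
    obtain ⟨𝔡, hd⟩ := hα
    have hd' : Ideal.span {α} = 𝔡 * 𝔠 ^ 2 := by rw [hd, mul_comm]
    have hsp : (Ideal.span {α} : Ideal (𝓞 M)) ≠ ⊥ := by simpa using hα0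
    have hd0 : 𝔡 ≠ ⊥ := by
      intro h0
      apply hsp
      rw [hd', h0, Ideal.bot_mul]
    refine ⟨𝔡, ?_, hd'⟩
    intro x hx
    by_contra hux
    have hxt : x ≠ ⊤ := by
      intro ht
      apply hux
      rw [ht, ← Ideal.one_eq_top]
      exact isUnit_one
    obtain ⟨Q, hQ, hxQ⟩ := Ideal.exists_le_maximal x hxt
    have hx0 : x ≠ ⊥ := by
      intro h0
      apply hd0
      rw [h0, Ideal.bot_mul] at hx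
      exact eq_bot_iff.2 (Ideal.dvd_iff_le.1 hx)
    have hQ0 : Q ≠ ⊥ := by
      intro h0
      rw [h0] at hxQ
      exact hx0 (eq_bot_iff.2 hxQ)
    refine h Q hQ.isPrime hQ0 ?_
    rw [mem_iff_dvd, hd', pow_two]
    have h1 : Q ∣ x := Ideal.dvd_iff_le.2 hxQ
    exact mul_dvd_mul_right ((mul_dvd_mul h1 h1).trans hx) _

lemma tendsto_of_near' (f : ℝ → ℝ)
    (h : ∀ ε : ℝ, 0 < ε → ∃ (g : ℝ → ℝ) (c : ℝ), Tendsto g atTop (𝓝 c) ∧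
      ∀ᶠ Y in atTop, |f Y - g Y| ≤ ε) : ∃ c : ℝ, Tendsto f atTop (𝓝 c) := by
  have hc : Cauchy (map f atTop) := by
    rw [Metric.cauchy_iff]
    refine ⟨inferInstance, fun ε hε => ?_⟩
    obtain ⟨g, c, hg, hfg⟩ := h (ε / 6) (by positivity)
    have h1 : ∀ᶠ Y in atTop, |g Y - c| < ε / 6 := by
      have := Metric.tendsto_nhds.1 hg (ε / 6) (by positivity)
      filter_upwards [this] with Y hY
      rwa [Real.dist_eq] at hY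
    refine ⟨{y | |y - c| < ε / 2}, ?_, ?_⟩
    · rw [Filter.mem_map]
      filter_upwards [h1, hfg] with Y h2 h3
      show |f Y - c| < ε / 2
      calc |f Y - c| = |(f Y - g Y) + (g Y - c)| := by ring_nf
        _ ≤ |f Y - g Y| + |g Y - c| := abs_add_le _ _
        _ < ε / 2 := by linarith
    · intro x hx y hy
      have hx' : |x - c| < ε / 2 := hx
      have hy' : |y - c| < ε / 2 := hy
      rw [Real.dist_eq]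
      calc |x - y| = |(x - c) - (y - c)| := by ring_nf
        _ ≤ |x - c| + |y - c| := abs_sub _ _
        _ < ε := by linarith
  obtain ⟨c, hc'⟩ := CompleteSpace.complete hc
  exact ⟨c, hc'⟩

lemma lim_near {f g : ℝ → ℝ} {a b ε : ℝ} (hf : Tendsto f atTop (𝓝 a))
    (hg : Tendsto g atTop (𝓝 b)) (h : ∀ᶠ Z in atTop, |f Z - g Z| ≤ ε) : |a - b| ≤ ε :=
  le_of_tendsto ((hf.sub hg).abs) h

/-- the set in SQD -/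
def PW (𝔠 : Ideal (𝓞 M)) (a : 𝓞 M) (W₀ : Finset (Ideal (𝓞 M))) (α : 𝓞 M) : Prop :=
  α - a ∈ Ideal.span {(4 : 𝓞 M)} * 𝔠 ^ 2 ∧ Sqf M 𝔠 α ∧ ∀ 𝔓 ∈ W₀, α ∉ 𝔓 * 𝔠 ^ 2

/-- finitely many conditions -/
def PS (𝔠 : Ideal (𝓞 M)) (a : 𝓞 M) (W₀ S : Finset (Ideal (𝓞 M))) (α : 𝓞 M) : Prop :=
  (α - a ∈ Ideal.span {(4 : 𝓞 M)} * 𝔠 ^ 2 ∧ α ∈ (1 : Ideal (𝓞 M)) * 𝔠 ^ 2) ∧
    ∀ Q ∈ S, α ∉ Q ^ (by classical exact if Q ∈ W₀ then 1 else 2) * 𝔠 ^ 2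

open Classical in
theorem limS {c : ℝ} (hc : ∀ 𝔟 : Ideal (𝓞 M), 𝔟 ≠ ⊥ → ∀ a : 𝓞 M,
      Tendsto (fun Z : ℝ => cnt (fun α => α - a ∈ 𝔟) Z / Z) atTop (𝓝 (c / Ideal.absNorm 𝔟)))
    (𝔠 : Ideal (𝓞 M)) (h𝔠 : 𝔠 ≠ ⊥) (a : 𝓞 M) (ha : a ∈ 𝔠 ^ 2) (W₀ S : Finset (Ideal (𝓞 M)))
    (hW : W₀ ⊆ S) (hS : ∀ Q ∈ S, OddP Q) :
    Tendsto (fun Z : ℝ => cnt (PS 𝔠 a W₀ S) Z / Z) atTop
      (𝓝 (c / Ideal.absNorm (Ideal.span {(4 : 𝓞 M)} * 1 * 𝔠 ^ 2) *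
        (∏ Q ∈ S, (1 - 1 / (Ideal.absNorm Q : ℝ) ^ 2)) * loc M W₀)) := by
  have h1 := claimA hc 𝔠 h𝔠 a ha (fun Q => if Q ∈ W₀ then 1 else 2) S hS 1 one_ne_zero
    isCoprime_one_right (fun Q _ => isCoprime_one_right)
  have e : c / Ideal.absNorm (Ideal.span {(4 : 𝓞 M)} * 1 * 𝔠 ^ 2) *
        (∏ Q ∈ S, (1 - 1 / (Ideal.absNorm Q : ℝ) ^ 2)) * loc M W₀ =
      c / Ideal.absNorm (Ideal.span {(4 : 𝓞 M)} * 1 * 𝔠 ^ 2) *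
        ∏ Q ∈ S, (1 - 1 / (Ideal.absNorm Q : ℝ) ^ (if Q ∈ W₀ then 1 else 2)) := by
    rw [mul_assoc]
    congr 1
    have h2 : loc M W₀ = ∏ Q ∈ S, (if Q ∈ W₀ then (1 + (1 : ℝ) / Ideal.absNorm Q)⁻¹ else 1) := by
      rw [loc, ← Finset.prod_filter]
      congr 1
      ext Q
      rw [Finset.mem_filter]
      exact ⟨fun h => ⟨hW h, h⟩, fun h => h.2⟩
    rw [h2, ← Finset.prod_mul_distrib]
    refine Finset.prod_congr rfl fun Q hQ => ?_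
    have hq := absNorm_pos (hS Q hQ).2.1
    by_cases h : Q ∈ W₀
    · rw [if_pos h, if_pos h, pow_one]
      have h3 : (1 : ℝ) + 1 / Ideal.absNorm Q ≠ 0 := by positivity
      have h4 : (1 : ℝ) - 1 / (Ideal.absNorm Q : ℝ) ^ 2 =
          (1 - 1 / (Ideal.absNorm Q : ℝ)) * (1 + 1 / Ideal.absNorm Q) := by
        field_simp
        ring
      rw [h4, mul_assoc, mul_inv_cancel₀ h3, mul_one]
    · rw [if_neg h, if_neg h, mul_one]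
  rw [e]
  exact h1

open Classical in
theorem near {C : ℝ} (hC0 : 0 < C) (hC : ∀ 𝔟 : Ideal (𝓞 M), 𝔟 ≠ ⊥ → ∀ Z : ℝ, 0 ≤ Z →
      cnt (fun α => α ∈ 𝔟) Z ≤ C * Z / Ideal.absNorm 𝔟)
    (𝔠 : Ideal (𝓞 M)) (h𝔠 : 𝔠 ≠ ⊥) (a : 𝓞 M) (ha : a ∈ 𝔠 ^ 2)
    (hev : ∀ Q : Ideal (𝓞 M), Q.IsPrime → Q ≠ ⊥ → (2 : 𝓞 M) ∈ Q → a ∉ Q ^ 2 * 𝔠 ^ 2)
    (ε : ℝ) (hε : 0 < ε) : ∃ S₀ : Finset (Ideal (𝓞 M)), (∀ Q ∈ S₀, OddP Q) ∧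
      ∀ W₀ S : Finset (Ideal (𝓞 M)), S₀ ⊆ S → W₀ ⊆ S → (∀ Q ∈ S, OddP Q) → ∀ Z : ℝ, 0 < Z →
        |cnt (PW 𝔠 a W₀) Z / Z - cnt (PS 𝔠 a W₀ S) Z / Z| ≤ ε := by
  obtain ⟨S₀, hS₀, hB⟩ := claimB hC0 hC 𝔠 h𝔠 ε hε
  refine ⟨S₀, hS₀, fun W₀ S hSS hWS hS Z hZ => ?_⟩
  have h4 : ∀ α : 𝓞 M, α - a ∈ Ideal.span {(4 : 𝓞 M)} * 𝔠 ^ 2 → α ∈ 𝔠 ^ 2 := by
    intro α hα
    have h1 : α - a ∈ 𝔠 ^ 2 := Ideal.mul_le_right hα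
    have h2 := Ideal.add_mem _ h1 ha
    rwa [sub_add_cancel] at h2
  have hodd : ∀ α : 𝓞 M, α ∈ cone M → α - a ∈ Ideal.span {(4 : 𝓞 M)} * 𝔠 ^ 2 →
      (Sqf M 𝔠 α ↔ ∀ Q : Ideal (𝓞 M), OddP Q → α ∉ Q ^ 2 * 𝔠 ^ 2) := by
    intro α hα h1
    rw [sqf_iff h𝔠 (cone_ne α hα) (h4 α h1)]
    constructor
    · intro h Q hQ
      exact h Q hQ.1 hQ.2.1
    · intro h Q hQ1 hQ2 hmem
      by_cases h2 : (2 : 𝓞 M) ∈ Q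
      · refine hev Q hQ1 hQ2 h2 ?_
        have h3 : Ideal.span {(4 : 𝓞 M)} ≤ Q ^ 2 := by
          rw [Ideal.span_singleton_le_iff_mem, pow_two]
          have : (4 : 𝓞 M) = 2 * 2 := by norm_num
          rw [this]
          exact Ideal.mul_mem_mul h2 h2
        have h5 : α - a ∈ Q ^ 2 * 𝔠 ^ 2 := Ideal.mul_mono_left h3 h1
        have h6 := Ideal.sub_mem _ hmem h5
        rwa [sub_sub_cancel] at h6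
      · exact h Q ⟨hQ1, hQ2, h2⟩ hmem
  have hnear : |cnt (PW 𝔠 a W₀) Z - cnt (PS 𝔠 a W₀ S) Z| ≤
      cnt (fun α => ∃ Q, OddP Q ∧ Q ∉ S₀ ∧ α ∈ Q ^ 2 * 𝔠 ^ 2) Z := by
    refine cnt_near ?_ ?_ Z
    · rintro α hα ⟨h1, h2, h3⟩
      refine ⟨⟨h1, by rw [one_mul]; exact h4 α h1⟩, fun Q hQ => ?_⟩
      by_cases hQW : Q ∈ W₀
      · rw [if_pos hQW, pow_one]
        exact h3 Q hQW
      · rw [if_neg hQW]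
        exact (hodd α hα h1).1 h2 Q (hS Q hQ)
    · rintro α hα ⟨⟨h1, -⟩, h2⟩ hn
      by_contra hcon
      push Not at hcon
      apply hn
      refine ⟨h1, ?_, ?_⟩
      · rw [hodd α hα h1]
        intro Q hQ hmem
        by_cases hQS : Q ∈ S
        · have h3 := h2 Q hQS
          by_cases hQW : Q ∈ W₀
          · rw [if_pos hQW, pow_one] at h3
            apply h3
            have h5 : Q ^ 2 ≤ Q := by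
              rw [pow_two]
              exact Ideal.mul_le_left
            exact Ideal.mul_mono_left h5 hmem
          · rw [if_neg hQW] at h3
            exact h3 hmem
        · exact hcon Q hQ (fun h => hQS (hSS h)) hmem
      · intro 𝔓 h𝔓 hmem
        have h3 := h2 𝔓 (hWS h𝔓)
        rw [if_pos h𝔓, pow_one] at h3
        exact h3 hmem
  rw [← sub_div, abs_div, abs_of_pos hZ, div_le_iff₀ hZ]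
  exact hnear.trans (hB Z hZ.le)

lemma loc_pos (W₀ : Finset (Ideal (𝓞 M))) : 0 < loc M W₀ := by
  unfold loc
  exact Finset.prod_pos fun _ _ => by positivity

lemma loc_le (W₀ : Finset (Ideal (𝓞 M))) : loc M W₀ ≤ 1 := by
  unfold loc
  refine Finset.prod_le_one (fun _ _ => by positivity) fun Q _ => ?_
  refine inv_le_one_of_one_le₀ ?_
  have : (0 : ℝ) ≤ (1 : ℝ) / Ideal.absNorm Q := by positivity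
  linarith

lemma loc_empty : loc M (∅ : Finset (Ideal (𝓞 M))) = 1 := by
  unfold loc
  exact Finset.prod_empty

end

theorem t_SQD : S_SQD := by
  classical
  intro M _ _ 𝔠 h𝔠 a
  have hset : ∀ (W₀ : Finset (Ideal (𝓞 M))) (Z : ℝ), (Set.ncard {α : 𝓞 M | α ∈ cone M ∧
      α - a ∈ Ideal.span {(4 : 𝓞 M)} * 𝔠 ^ 2 ∧ Sqf M 𝔠 α ∧ (∀ 𝔓 ∈ W₀, α ∉ 𝔓 * 𝔠 ^ 2) ∧
      nrm α ≤ Z} : ℝ) = cnt (PW 𝔠 a W₀) Z := by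
    intro W₀ Z
    unfold cnt
    congr 2
    ext α
    constructor
    · rintro ⟨h1, h2, h3, h4, h5⟩
      exact ⟨h1, ⟨h2, h3, h4⟩, h5⟩
    · rintro ⟨h1, ⟨h2, h3, h4⟩, h5⟩
      exact ⟨h1, h2, h3, h4, h5⟩
  have hzero : (∀ (W₀ : Finset (Ideal (𝓞 M))) (α : 𝓞 M), ¬ PW 𝔠 a W₀ α) →
      ∃ D : ℝ, 0 ≤ D ∧ ∀ W₀ : Finset (Ideal (𝓞 M)), OddPrimes M W₀ →
      Tendsto (fun Z : ℝ => (Set.ncard {α : 𝓞 M | α ∈ cone M ∧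
        α - a ∈ Ideal.span {(4 : 𝓞 M)} * 𝔠 ^ 2 ∧ Sqf M 𝔠 α ∧ (∀ 𝔓 ∈ W₀, α ∉ 𝔓 * 𝔠 ^ 2) ∧
        nrm α ≤ Z} : ℝ) / Z) atTop (𝓝 (D * loc M W₀)) := by
    intro h
    refine ⟨0, le_rfl, fun W₀ _ => ?_⟩
    have e : (fun Z : ℝ => (Set.ncard {α : 𝓞 M | α ∈ cone M ∧
        α - a ∈ Ideal.span {(4 : 𝓞 M)} * 𝔠 ^ 2 ∧ Sqf M 𝔠 α ∧ (∀ 𝔓 ∈ W₀, α ∉ 𝔓 * 𝔠 ^ 2) ∧
        nrm α ≤ Z} : ℝ) / Z) = fun _ => 0 := by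
      funext Z
      rw [hset W₀ Z]
      have : {α : 𝓞 M | α ∈ cone M ∧ PW 𝔠 a W₀ α ∧ nrm α ≤ Z} = ∅ := by
        rw [Set.eq_empty_iff_forall_notMem]
        rintro α ⟨-, h1, -⟩
        exact h W₀ α h1
      unfold cnt
      rw [this, Set.ncard_empty]
      simp
    rw [e, zero_mul]
    exact tendsto_const_nhds
  -- `a ∈ 𝔠 ^ 2`
  by_cases ha : a ∈ 𝔠 ^ 2
  swap
  · refine hzero fun W₀ α hα => ha ?_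
    obtain ⟨h1, ⟨-, 𝔡, -, h2⟩, -⟩ := hα
    have h3 : α ∈ 𝔠 ^ 2 := by
      rw [mem_iff_dvd, h2]
      exact dvd_mul_left _ _
    have h4 : α - a ∈ 𝔠 ^ 2 := Ideal.mul_le_right h1
    have h5 := Ideal.sub_mem _ h3 h4
    rwa [sub_sub_cancel] at h5
  by_cases hev : ∀ Q : Ideal (𝓞 M), Q.IsPrime → Q ≠ ⊥ → (2 : 𝓞 M) ∈ Q → a ∉ Q ^ 2 * 𝔠 ^ 2
  swap
  · push Not at hev
    obtain ⟨Q, hQ1, hQ2, hQ3, hQ4⟩ := hev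
    refine hzero fun W₀ α hα => ?_
    obtain ⟨h1, h2, -⟩ := hα
    have h3 : Ideal.span {(4 : 𝓞 M)} ≤ Q ^ 2 := by
      rw [Ideal.span_singleton_le_iff_mem, pow_two]
      have : (4 : 𝓞 M) = 2 * 2 := by norm_num
      rw [this]
      exact Ideal.mul_mem_mul hQ3 hQ3
    have h5 : α - a ∈ Q ^ 2 * 𝔠 ^ 2 := Ideal.mul_mono_left h3 h1
    have h6 := Ideal.add_mem _ h5 hQ4
    rw [sub_add_cancel] at h6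
    have h7 : α ∈ 𝔠 ^ 2 := Ideal.mul_le_right h6
    exact (sqf_iff h𝔠 h2.1 h7).1 h2 Q hQ1 hQ2 h6
  -- the main case
  obtain ⟨c, hc0, hc⟩ := CEX.t_CEX M
  obtain ⟨C, hC0, hC⟩ := CUB.t_CUB M
  have hc' : ∀ 𝔟 : Ideal (𝓞 M), 𝔟 ≠ ⊥ → ∀ a : 𝓞 M,
      Tendsto (fun Z : ℝ => cnt (fun α => α - a ∈ 𝔟) Z / Z) atTop
        (𝓝 (c / Ideal.absNorm 𝔟)) := by
    intro 𝔟 h𝔟 a'
    unfold cnt
    exact hc 𝔟 h𝔟 a'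
  have hC' : ∀ 𝔟 : Ideal (𝓞 M), 𝔟 ≠ ⊥ → ∀ Z : ℝ, 0 ≤ Z →
      cnt (fun α => α ∈ 𝔟) Z ≤ C * Z / Ideal.absNorm 𝔟 := by
    intro 𝔟 h𝔟 Z hZ
    unfold cnt
    exact hC 𝔟 h𝔟 Z hZ
  set A : Finset (Ideal (𝓞 M)) → ℝ := fun S =>
    c / Ideal.absNorm (Ideal.span {(4 : 𝓞 M)} * 1 * 𝔠 ^ 2) *
      (∏ Q ∈ S, (1 - 1 / (Ideal.absNorm Q : ℝ) ^ 2)) with hA
  have hlimS : ∀ W₀ S : Finset (Ideal (𝓞 M)), W₀ ⊆ S → (∀ Q ∈ S, OddP Q) →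
      Tendsto (fun Z : ℝ => cnt (PS 𝔠 a W₀ S) Z / Z) atTop (𝓝 (A S * loc M W₀)) :=
    fun W₀ S hW hS => limS hc' 𝔠 h𝔠 a ha W₀ S hW hS
  obtain ⟨D, hD⟩ := tendsto_of_near' (fun Z => cnt (PW 𝔠 a ∅) Z / Z) (by
    intro ε hε
    obtain ⟨S₀, hS₀, hn⟩ := near hC0 hC' 𝔠 h𝔠 a ha hev ε hε
    refine ⟨_, _, hlimS ∅ S₀ (Finset.empty_subset _) hS₀, ?_⟩
    filter_upwards [eventually_gt_atTop (0 : ℝ)] with Z hZ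
    exact hn ∅ S₀ (Finset.Subset.refl _) (Finset.empty_subset _) hS₀ Z hZ)
  refine ⟨D, ?_, fun W₀ hW₀ => ?_⟩
  · refine ge_of_tendsto hD ?_
    filter_upwards [eventually_gt_atTop (0 : ℝ)] with Z hZ
    exact div_nonneg (cnt_nonneg _ _) hZ.le
  have hW₀' : ∀ Q ∈ W₀, OddP Q := hW₀
  have e : (fun Z : ℝ => (Set.ncard {α : 𝓞 M | α ∈ cone M ∧
      α - a ∈ Ideal.span {(4 : 𝓞 M)} * 𝔠 ^ 2 ∧ Sqf M 𝔠 α ∧ (∀ 𝔓 ∈ W₀, α ∉ 𝔓 * 𝔠 ^ 2) ∧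
      nrm α ≤ Z} : ℝ) / Z) = fun Z => cnt (PW 𝔠 a W₀) Z / Z := by
    funext Z
    rw [hset W₀ Z]
  rw [e, Metric.tendsto_nhds]
  intro ε hε
  obtain ⟨S₀, hS₀, hn⟩ := near hC0 hC' 𝔠 h𝔠 a ha hev (ε / 4) (by positivity)
  set S := S₀ ∪ W₀ with hSdef
  have hS : ∀ Q ∈ S, OddP Q := by
    intro Q hQ
    rcases Finset.mem_union.1 hQ with h | h
    · exact hS₀ Q h
    · exact hW₀' Q h
  have hS1 : S₀ ⊆ S := Finset.subset_union_left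
  have hS2 : W₀ ⊆ S := Finset.subset_union_right
  have hl0 := hlimS ∅ S (Finset.empty_subset _) hS
  rw [loc_empty, mul_one] at hl0
  have hDA : |D - A S| ≤ ε / 4 := by
    refine lim_near hD hl0 ?_
    filter_upwards [eventually_gt_atTop (0 : ℝ)] with Z hZ
    exact hn ∅ S hS1 (Finset.empty_subset _) hS Z hZ
  have hl1 := hlimS W₀ S hS2 hS
  have h5 := Metric.tendsto_nhds.1 hl1 (ε / 4) (by positivity)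
  filter_upwards [h5, eventually_gt_atTop (0 : ℝ)] with Z h6 hZ
  have h7 := hn W₀ S hS1 hS2 hS Z hZ
  rw [Real.dist_eq] at h6 ⊢
  have hlp := loc_pos (M := M) W₀
  have hll := loc_le (M := M) W₀
  have h8 : |A S * loc M W₀ - D * loc M W₀| ≤ ε / 4 := by
    rw [← sub_mul, abs_mul, abs_of_pos hlp, abs_sub_comm]
    calc |D - A S| * loc M W₀ ≤ ε / 4 * 1 :=
          mul_le_mul hDA hll hlp.le (by positivity)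
      _ = ε / 4 := mul_one _
  have h9 : cnt (PW 𝔠 a W₀) Z / Z - D * loc M W₀ =
      (cnt (PW 𝔠 a W₀) Z / Z - cnt (PS 𝔠 a W₀ S) Z / Z) +
      (cnt (PS 𝔠 a W₀ S) Z / Z - A S * loc M W₀) + (A S * loc M W₀ - D * loc M W₀) := by ring
  rw [h9]
  refine (abs_add_three _ _ _).trans_lt ?_
  linarith

end Pool.Agent.H419.MX.SQD
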