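import Pool.Agent.H419.RM.Stm

/-! # The exact densities of the quadratic extensions which are unramified at given odd primes -/

set_option autoImplicit false

open NumberField Filter Topology
open Pool.Agent.TH444.ML Pool.Agent.H419.LT Pool.Agent.H419.RM

namespace Pool.Agent.H419.MX

/-- A finite set of odd primes of `M`. -/
def OddPrimes (M : Type) [Field M] (W₀ : Finset (Ideal (𝓞 M))) : Prop :=
  ∀ 𝔓 ∈ W₀, 𝔓.IsPrime ∧ 𝔓 ≠ ⊥ ∧ (2 : 𝓞 M) ∉ 𝔓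

/-- The local densities. -/
noncomputable def loc (M : Type) [Field M] [NumberField M] (W₀ : Finset (Ideal (𝓞 M))) : ℝ :=
  ∏ 𝔓 ∈ W₀, (1 + (1 : ℝ) / Ideal.absNorm 𝔓)⁻¹

/-- SQD: exact densities for the elements `α` with `(α) = 𝔡 𝔠 ^ 2`, `𝔡` squarefree and not divisible by
given odd primes. -/
def S_SQD : Prop := ∀ (M : Type) [Field M] [NumberField M] (𝔠 : Ideal (𝓞 M)), 𝔠 ≠ ⊥ →
  ∀ a : 𝓞 M, ∃ D : ℝ, 0 ≤ D ∧ ∀ W₀ : Finset (Ideal (𝓞 M)), OddPrimes M W₀ →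
  Tendsto (fun Z : ℝ => (Set.ncard {α : 𝓞 M | α ∈ cone M ∧
    α - a ∈ Ideal.span {(4 : 𝓞 M)} * 𝔠 ^ 2 ∧ Sqf M 𝔠 α ∧ (∀ 𝔓 ∈ W₀, α ∉ 𝔓 * 𝔠 ^ 2) ∧
    nrm α ≤ Z} : ℝ) / Z) atTop (𝓝 (D * loc M W₀))

/-- QSX: exact densities for the quadratic extensions of `M` unramified at given odd primes. -/
def S_QSX : Prop := ∀ (M E : Type) [Field M] [NumberField M] [Field E] [Algebra M E]
  [IsAlgClosed E], ∃ c : ℝ, 0 < c ∧ ∀ W₀ : Finset (Ideal (𝓞 M)), OddPrimes M W₀ →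
  Tendsto (fun Y : ℝ => (Set.ncard {L : IntermediateField M E | L ∈ QS M E Y ∧
    ∀ 𝔓 ∈ W₀, Unr M L 𝔓} : ℝ) / Y) atTop (𝓝 (c * loc M W₀))

end Pool.Agent.H419.MX
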