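import Pool.Agent.H419.LT.Tow
import Pool.Agent.H419.LT.TowFin
import Pool.Agent.H419.MX.Lim

/-! # Towers: the explicit constants -/

set_option autoImplicit false
set_option linter.unusedSectionVars false
set_option maxHeartbeats 1000000

open NumberField Filter Topology
open Pool.Agent.TH444.ML
open Pool.Agent.Q258.LQ Pool.Agent.H419.LT Pool.Agent.H419.RM Pool.Agent.H419.LT.STEPP

namespace Pool.Agent.H419.MX

theorem stepX {K Ω : Type} [Field K] [NumberField K] [Field Ω] [Algebra K Ω]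
    [IsAlgClosure K Ω] (P : IntermediateField K Ω → Prop) (𝓕 : Set (IntermediateField K Ω))
    (m : ℕ) (hF : ∀ F ∈ 𝓕, Module.finrank K F = m) (e : ℝ)
    (hbound : ∃ C : ℝ, 0 ≤ C ∧ ∀ F : IntermediateField K Ω, Module.finrank K F = m →
      ∀ X : ℝ, 0 < X → (AS F (X / dsc F ^ 2)).Finite ∧
      (Set.ncard (AS F (X / dsc F ^ 2)) : ℝ) ≤ C * X * (dsc F) ^ e)
    (hsum : Summable (fun F : 𝓕 => (dsc F.1) ^ e)) (c₀ : 𝓕 → ℝ)
    (hc₀ : ∀ F : 𝓕, Tendsto (fun Y : ℝ => (Set.ncard (AP P F.1 Y) : ℝ) / Y) atTop (𝓝 (c₀ F)))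
    (hlimB : ∀ F ∈ 𝓕, Tendsto (fun X : ℝ =>
      (Set.ncard (Pool.Agent.Q258.LQ.BS F (X / dsc F ^ 2)) : ℝ) / X) atTop (𝓝 0)) :
    (∀ X : ℝ, 0 < X → (UX 𝓕 X).Finite) ∧
    Summable (fun F : 𝓕 => c₀ F * (1 / dsc F.1 ^ 2)) ∧
    Tendsto (fun X : ℝ => (Set.ncard (UP P 𝓕 X) : ℝ) / X) atTop
      (𝓝 (∑' F : 𝓕, c₀ F * (1 / dsc F.1 ^ 2))) := by
  classical
  have hd0 : ∀ F : 𝓕, 0 < dsc F.1 := by
    intro F
    have h1 : 1 ≤ dsc F.1 := one_le_dsc F.1
    linarith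
  obtain ⟨C, hC0, hC⟩ := hbound
  set cF : 𝓕 → ℝ := fun F => c₀ F * (1 / dsc F.1 ^ 2) with hcFdef
  have hc₀0 : ∀ F : 𝓕, 0 ≤ c₀ F := by
    intro F
    refine ge_of_tendsto (hc₀ F) ?_
    filter_upwards [eventually_ge_atTop (0 : ℝ)] with Y hY
    positivity
  have hcF0 : ∀ F : 𝓕, 0 ≤ cF F := by
    intro F
    have h1 := hc₀0 F
    have h2 := hd0 F
    simp only [hcFdef]
    positivity
  have hcF : ∀ F : 𝓕,
      Tendsto (fun X : ℝ => (Set.ncard (AP P F.1 (X / dsc F.1 ^ 2)) : ℝ) / X) atTop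
        (𝓝 (cF F)) :=
    fun F => subst_lim (f := fun Y => (Set.ncard (AP P F.1 Y) : ℝ)) (hd0 F) (hc₀ F)
  have hsum' : Summable (fun F : 𝓕 => C * (dsc F.1) ^ e) := hsum.mul_left C
  have hfinS : ∀ (F : 𝓕) (X : ℝ), 0 < X → (AS F.1 (X / dsc F.1 ^ 2)).Finite :=
    fun F X hX => (hC F.1 (hF F.1 F.2) X hX).1
  have hfinA : ∀ (F : 𝓕) (X : ℝ), 0 < X → (AP P F.1 (X / dsc F.1 ^ 2)).Finite :=
    fun F X hX => (hfinS F X hX).subset (AP_sub P _ _)
  have hbdS : ∀ (F : 𝓕) (X : ℝ), 0 < X →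
      (Set.ncard (AS F.1 (X / dsc F.1 ^ 2)) : ℝ) ≤ X * (C * (dsc F.1) ^ e) := by
    intro F X hX
    refine (hC F.1 (hF F.1 F.2) X hX).2.trans (le_of_eq (by ring))
  have hbd : ∀ (F : 𝓕) (X : ℝ), 0 < X →
      (Set.ncard (AP P F.1 (X / dsc F.1 ^ 2)) : ℝ) ≤ X * (C * (dsc F.1) ^ e) := by
    intro F X hX
    refine le_trans ?_ (hbdS F X hX)
    exact_mod_cast Set.ncard_le_ncard (AP_sub P _ _) (hfinS F X hX)
  have hBA : ∀ (F : 𝓕) (X : ℝ), 0 < X →
      Set.ncard (BP P F.1 (X / dsc F.1 ^ 2)) ≤ Set.ncard (AP P F.1 (X / dsc F.1 ^ 2)) :=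
    fun F X hX => Set.ncard_le_ncard (BP_sub P _ _) (hfinA F X hX)
  have hbF : ∀ F : 𝓕,
      Tendsto (fun X : ℝ => (Set.ncard (BP P F.1 (X / dsc F.1 ^ 2)) : ℝ) / X) atTop (𝓝 0) := by
    intro F
    refine squeeze_zero' ?_ ?_ (hlimB F.1 F.2)
    · filter_upwards [eventually_gt_atTop (0 : ℝ)] with X hX
      positivity
    · filter_upwards [eventually_gt_atTop (0 : ℝ)] with X hX
      apply div_le_div_of_nonneg_right _ hX.le
      exact_mod_cast Set.ncard_le_ncard (BP_BS P _ _)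
        ((hfinS F X hX).subset (BS_sub _ _))
  have hfinU : ∀ X : ℝ, 0 < X → (UX 𝓕 X).Finite := by
    intro X hX
    have hs1 : Summable (fun F : 𝓕 => (Set.ncard (AS F.1 (X / dsc F.1 ^ 2)) : ℝ)) :=
      Summable.of_nonneg_of_le (fun F => by positivity) (fun F => hbdS F X hX)
        (hsum'.mul_left X)
    have hfs : {F : 𝓕 | (AS F.1 (X / dsc F.1 ^ 2)).Nonempty}.Finite := by
      have h := hs1.tendsto_cofinite_zero.eventually (gt_mem_nhds (zero_lt_one (α := ℝ)))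
      rw [Filter.eventually_cofinite] at h
      refine h.subset ?_
      intro F hFn
      simp only [Set.mem_ofPred_eq, not_lt]
      have : 0 < Set.ncard (AS F.1 (X / dsc F.1 ^ 2)) := (Set.ncard_pos (hfinS F X hX)).2 hFn
      exact_mod_cast this
    have hT : UX 𝓕 X = ⋃ F ∈ hfs.toFinset, AS F.1 (X / dsc F.1 ^ 2) := by
      rw [UX_eq]
      ext L
      simp only [Set.mem_iUnion, Set.Finite.mem_toFinset, Set.mem_ofPred_eq, exists_prop]
      constructor
      · rintro ⟨F, hFL⟩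
        exact ⟨F, ⟨L, hFL⟩, hFL⟩
      · rintro ⟨F, -, hFL⟩
        exact ⟨F, hFL⟩
    rw [hT]
    exact Set.Finite.biUnion hfs.toFinset.finite_toSet (fun F _ => hfinS F X hX)
  -- for fixed `X`
  have key : ∀ X : ℝ, 0 < X →
      (Set.ncard (UP P 𝓕 X) : ℝ) ≤ ∑' F : 𝓕, (Set.ncard (AP P F.1 (X / dsc F.1 ^ 2)) : ℝ) ∧
      ∑' F : 𝓕, ((Set.ncard (AP P F.1 (X / dsc F.1 ^ 2)) : ℝ) -
        Set.ncard (BP P F.1 (X / dsc F.1 ^ 2))) ≤ (Set.ncard (UP P 𝓕 X) : ℝ) := by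
    intro X hX
    have hs1 : Summable (fun F : 𝓕 => (Set.ncard (AP P F.1 (X / dsc F.1 ^ 2)) : ℝ)) :=
      Summable.of_nonneg_of_le (fun F => by positivity) (fun F => hbd F X hX)
        (hsum'.mul_left X)
    have hfs : {F : 𝓕 | (AP P F.1 (X / dsc F.1 ^ 2)).Nonempty}.Finite := by
      have h := hs1.tendsto_cofinite_zero.eventually (gt_mem_nhds (zero_lt_one (α := ℝ)))
      rw [Filter.eventually_cofinite] at h
      refine h.subset ?_
      intro F hFn
      simp only [Set.mem_ofPred_eq, not_lt]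
      have : 0 < Set.ncard (AP P F.1 (X / dsc F.1 ^ 2)) := (Set.ncard_pos (hfinA F X hX)).2 hFn
      exact_mod_cast this
    have hzero : ∀ F : 𝓕, F ∉ hfs.toFinset →
        Set.ncard (AP P F.1 (X / dsc F.1 ^ 2)) = 0 := by
      intro F hFn
      have : ¬ (AP P F.1 (X / dsc F.1 ^ 2)).Nonempty := by
        intro h; exact hFn (by simpa using h)
      rw [Set.not_nonempty_iff_eq_empty] at this
      rw [this]; simp
    have hT : UP P 𝓕 X = ⋃ F ∈ hfs.toFinset, AP P F.1 (X / dsc F.1 ^ 2) := by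
      rw [UP_eq]
      ext L
      simp only [Set.mem_iUnion, Set.Finite.mem_toFinset, Set.mem_ofPred_eq, exists_prop]
      constructor
      · rintro ⟨F, hFL⟩
        exact ⟨F, ⟨L, hFL⟩, hFL⟩
      · rintro ⟨F, -, hFL⟩
        exact ⟨F, hFL⟩
    have hTf : (UP P 𝓕 X).Finite := by
      rw [hT]
      exact Set.Finite.biUnion hfs.toFinset.finite_toSet (fun F _ => hfinA F X hX)
    refine ⟨?_, ?_⟩
    · have hTb : hTf.toFinset =
          hfs.toFinset.biUnion (fun F => (hfinA F X hX).toFinset) := by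
        ext L
        rw [Set.Finite.mem_toFinset, hT]
        simp only [Set.mem_iUnion, Finset.mem_biUnion, Set.Finite.mem_toFinset, exists_prop]
      have hcard : (UP P 𝓕 X).ncard ≤
          ∑ F ∈ hfs.toFinset, (AP P F.1 (X / dsc F.1 ^ 2)).ncard := by
        rw [Set.ncard_eq_toFinset_card _ hTf, hTb]
        refine Finset.card_biUnion_le.trans (le_of_eq ?_)
        refine Finset.sum_congr rfl fun F _ => ?_
        exact (Set.ncard_eq_toFinset_card _ (hfinA F X hX)).symm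
      rw [tsum_eq_sum (s := hfs.toFinset) (fun F hFn => by rw [hzero F hFn]; simp)]
      exact_mod_cast hcard
    · rw [tsum_eq_sum (s := hfs.toFinset)]
      · have hG : ∀ F : 𝓕,
            ((AP P F.1 (X / dsc F.1 ^ 2)) \ (BP P F.1 (X / dsc F.1 ^ 2))).Finite :=
          fun F => (hfinA F X hX).subset Set.sdiff_subset
        have hsub : hfs.toFinset.biUnion (fun F => (hG F).toFinset) ⊆ hTf.toFinset := by
          intro L hL
          rw [Finset.mem_biUnion] at hL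
          obtain ⟨F, hF1, hF2⟩ := hL
          rw [Set.Finite.mem_toFinset] at hF2 ⊢
          rw [hT]
          simp only [Set.mem_iUnion, exists_prop]
          exact ⟨F, hF1, hF2.1⟩
        have hdis : ∀ F ∈ hfs.toFinset, ∀ F' ∈ hfs.toFinset, F ≠ F' →
            Disjoint (hG F).toFinset (hG F').toFinset := by
          intro F _ F' _ hne'
          rw [Finset.disjoint_left]
          intro L h1 h2
          rw [Set.Finite.mem_toFinset] at h1 h2
          apply h1.2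
          refine ⟨⟨h1.1.1.1, h1.1.1.2.1, ⟨F'.1, h2.1.1.1, fun h => hne' (Subtype.ext h.symm), ?_⟩,
            h1.1.1.2.2⟩, h1.1.2⟩
          rw [hF F.1 F.2, hF F'.1 F'.2]
        have hcard : ∑ F ∈ hfs.toFinset,
            ((AP P F.1 (X / dsc F.1 ^ 2)) \ (BP P F.1 (X / dsc F.1 ^ 2))).ncard ≤
              (UP P 𝓕 X).ncard := by
          rw [Set.ncard_eq_toFinset_card _ hTf]
          refine le_trans (le_of_eq ?_) (Finset.card_le_card hsub)
          rw [Finset.card_biUnion hdis]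
          refine Finset.sum_congr rfl fun F _ => ?_
          exact Set.ncard_eq_toFinset_card _ (hG F)
        have hcard' : ((∑ F ∈ hfs.toFinset,
            ((AP P F.1 (X / dsc F.1 ^ 2)) \ (BP P F.1 (X / dsc F.1 ^ 2))).ncard : ℕ) : ℝ) ≤
            (UP P 𝓕 X).ncard := by exact_mod_cast hcard
        refine le_trans (le_of_eq ?_) hcard'
        push_cast
        refine Finset.sum_congr rfl fun F _ => ?_
        have h3 := Set.ncard_sdiff_add_ncard_of_subset (BP_sub P F.1 (X / dsc F.1 ^ 2))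
          (hfinA F X hX)
        rw [← h3]
        push_cast
        ring
      · intro F hFn
        have h1 := hzero F hFn
        have h2 := hBA F X hX
        rw [h1] at h2
        rw [h1, Nat.le_zero.1 h2]
        simp
  have hle : ∀ F : 𝓕, cF F ≤ C * (dsc F.1) ^ e := by
    intro F
    refine le_of_tendsto (hcF F) ?_
    filter_upwards [eventually_gt_atTop (0 : ℝ)] with X hX
    rw [div_le_iff₀ hX]
    have := hbd F X hX
    linarith
  have hs : Summable cF := Summable.of_nonneg_of_le hcF0 hle hsum'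
  refine ⟨hfinU, hs, ?_⟩
  · have hup := tendsto_tsum_of_dominated_convergence (𝓕 := atTop)
      (f := fun (X : ℝ) (F : 𝓕) => (Set.ncard (AP P F.1 (X / dsc F.1 ^ 2)) : ℝ) / X)
      (g := cF) hsum' (fun F => hcF F) (by
        filter_upwards [eventually_gt_atTop (0 : ℝ)] with X hX F
        rw [Real.norm_of_nonneg (by positivity), div_le_iff₀ hX]
        have := hbd F X hX
        linarith)
    have hlo := tendsto_tsum_of_dominated_convergence (𝓕 := atTop)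
      (f := fun (X : ℝ) (F : 𝓕) => ((Set.ncard (AP P F.1 (X / dsc F.1 ^ 2)) : ℝ) -
        Set.ncard (BP P F.1 (X / dsc F.1 ^ 2))) / X)
      (g := cF) hsum' (fun F => by
        have h := (hcF F).sub (hbF F)
        rw [sub_zero] at h
        refine h.congr (fun X => ?_)
        rw [sub_div]) (by
        filter_upwards [eventually_gt_atTop (0 : ℝ)] with X hX F
        have h1 : (Set.ncard (BP P F.1 (X / dsc F.1 ^ 2)) : ℝ) ≤
            Set.ncard (AP P F.1 (X / dsc F.1 ^ 2)) := by exact_mod_cast hBA F X hX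
        have h0 : (0 : ℝ) ≤ Set.ncard (BP P F.1 (X / dsc F.1 ^ 2)) := Nat.cast_nonneg _
        rw [Real.norm_of_nonneg (div_nonneg (by linarith) hX.le), div_le_iff₀ hX]
        have := hbd F X hX
        linarith)
    refine tendsto_of_tendsto_of_tendsto_of_le_of_le' hlo hup ?_ ?_
    · filter_upwards [eventually_gt_atTop (0 : ℝ)] with X hX
      rw [tsum_div_const]
      exact div_le_div_of_nonneg_right (key X hX).2 hX.le
    · filter_upwards [eventually_gt_atTop (0 : ℝ)] with X hX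
      rw [tsum_div_const]
      exact div_le_div_of_nonneg_right (key X hX).1 hX.le

section

variable {K Ω : Type} [Field K] [NumberField K] [Field Ω] [Algebra K Ω] [IsAlgClosure K Ω]

/-- **Main theorem**, even degree, with the property `P`. -/
theorem main_evenX (s : ℝ) (hs1 : 1 < s)
    (hs2 : s < 3 / 2)
    (𝓑 : Set (IntermediateField K Ω)) (k : ℕ) (hk : 0 < k)
    (hB : ∀ m : ℕ, 0 < m → m ≤ 2 * k → Summable (fun F : {F : IntermediateField K Ω | F ∈ 𝓑 ∧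
      Module.finrank K F = m} => (dsc F.1) ^ (-s)))
    (P : IntermediateField K Ω → Prop) (c₀ : PT 𝓑 k → ℝ)
    (hc₀ : ∀ F : PT 𝓑 k, Tendsto (fun Y : ℝ =>
      (Set.ncard {L : IntermediateField K Ω | L ∈ AS F.1 Y ∧ P L} : ℝ) / Y) atTop (𝓝 (c₀ F))) :
    Summable (fun F : PT 𝓑 k => c₀ F * (1 / dsc F.1 ^ 2)) ∧ Tendsto (fun X : ℝ =>
      (Set.ncard {L : IntermediateField K Ω | (L ∈ PP 𝓑 (2 * k) ∧ dsc L ≤ X) ∧ P L} : ℝ) / X)
        atTop (𝓝 (∑' F : PT 𝓑 k, c₀ F * (1 / dsc F.1 ^ 2))) := by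
  classical
  obtain ⟨hfin, hsm, hlim⟩ := stepX P (PT 𝓑 k) k (fun F hF => hF.2) _
    (bound_AS3 (K := K) (Ω := Ω) inp.qu s hs2 k hk)
    (sum_main inp s hs1 hs2 𝓑 (2 * k) hB k hk (by omega)) c₀ hc₀ (by
      intro F hFF
      have hfd : FiniteDimensional K F := fd_of_finrank hk hFF.2
      obtain ⟨c, hc, h1, h2⟩ := lim_AS inp.ql inp.qp inp.bs F
      exact h2)
  change Tendsto (fun X : ℝ =>
    (Set.ncard {L : IntermediateField K Ω | L ∈ UX (PT 𝓑 k) X ∧ P L} : ℝ) / X) atTop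
      (𝓝 (∑' F : PT 𝓑 k, c₀ F * (1 / dsc F.1 ^ 2))) at hlim
  refine ⟨hsm, ?_⟩
  set c : ℝ := ∑' F : PT 𝓑 k, c₀ F * (1 / dsc F.1 ^ 2) with hcdef
  obtain ⟨Ct, hR⟩ := odd_union inp s hs1 hs2 𝓑 (2 * k) (by omega) hB
  set Q : Finset ℕ := (2 * k).primeFactors.erase 2 with hQ
  have hlow : ∀ X : ℝ, {L : IntermediateField K Ω | L ∈ UX (PT 𝓑 k) X ∧ P L} ⊆
      {L : IntermediateField K Ω | (L ∈ PP 𝓑 (2 * k) ∧ dsc L ≤ X) ∧ P L} :=
    fun X L hL => ⟨⟨up_PP 𝓑 k hk hL.1.1, hL.1.2⟩, hL.2⟩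
  have hupp : ∀ X : ℝ, {L : IntermediateField K Ω | (L ∈ PP 𝓑 (2 * k) ∧ dsc L ≤ X) ∧ P L} ⊆
      {L : IntermediateField K Ω | L ∈ UX (PT 𝓑 k) X ∧ P L} ∪
        ⋃ ℓ ∈ Q, GU (K := K) (Ω := Ω) ℓ (PT 𝓑 (2 * k / ℓ)) X := by
    rintro X L ⟨⟨hL, hX⟩, hP⟩
    obtain ⟨ℓ, hℓ, hG⟩ := PP_cases 𝓑 (by omega) hL
    by_cases h2' : ℓ = 2
    · left
      subst h2'
      rw [Nat.mul_div_cancel_left k (by norm_num)] at hG
      exact ⟨⟨GG_up (PT 𝓑 k) hG, hX⟩, hP⟩
    · right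
      simp only [Set.mem_iUnion, exists_prop]
      refine ⟨ℓ, by rw [hQ]; exact Finset.mem_erase.2 ⟨h2', hℓ⟩, ?_⟩
      rw [← GG_GU]
      exact ⟨hG, hX⟩
  have hlim2 : Tendsto (fun X : ℝ =>
      (Set.ncard {L : IntermediateField K Ω | L ∈ UX (PT 𝓑 k) X ∧ P L} : ℝ) / X +
      Ct * X ^ (-(1 / 2 - s / 3) : ℝ)) atTop (𝓝 c) := by
    have h1 : Tendsto (fun X : ℝ => Ct * X ^ (-(1 / 2 - s / 3) : ℝ)) atTop (𝓝 0) := by
      have := (tendsto_rpow_neg_atTop (by linarith : (0 : ℝ) < 1 / 2 - s / 3)).const_mul Ct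
      rwa [mul_zero] at this
    simpa using hlim.add h1
  have hfinP : ∀ X : ℝ, 0 < X → {L : IntermediateField K Ω | L ∈ UX (PT 𝓑 k) X ∧ P L}.Finite :=
    fun X hX => (hfin X hX).subset fun L hL => hL.1
  refine tendsto_of_tendsto_of_tendsto_of_le_of_le' hlim hlim2 ?_ ?_
  · filter_upwards [eventually_ge_atTop (1 : ℝ)] with X hX
    have hX0 : 0 < X := by linarith
    have hf : {L : IntermediateField K Ω | (L ∈ PP 𝓑 (2 * k) ∧ dsc L ≤ X) ∧ P L}.Finite :=
      ((hfinP X hX0).union (hR X hX).1).subset (hupp X)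
    refine div_le_div_of_nonneg_right ?_ hX0.le
    exact_mod_cast Set.ncard_le_ncard (hlow X) hf
  · filter_upwards [eventually_ge_atTop (1 : ℝ)] with X hX
    have hX0 : 0 < X := by linarith
    have h1 : Set.ncard {L : IntermediateField K Ω | (L ∈ PP 𝓑 (2 * k) ∧ dsc L ≤ X) ∧ P L} ≤
        Set.ncard {L : IntermediateField K Ω | L ∈ UX (PT 𝓑 k) X ∧ P L} +
        Set.ncard (⋃ ℓ ∈ Q, GU (K := K) (Ω := Ω) ℓ (PT 𝓑 (2 * k / ℓ)) X) :=
      (Set.ncard_le_ncard (hupp X) ((hfinP X hX0).union (hR X hX).1)).trans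
        (Set.ncard_union_le _ _)
    have h2 : (Set.ncard {L : IntermediateField K Ω |
        (L ∈ PP 𝓑 (2 * k) ∧ dsc L ≤ X) ∧ P L} : ℝ) ≤
        Set.ncard {L : IntermediateField K Ω | L ∈ UX (PT 𝓑 k) X ∧ P L} +
        Set.ncard (⋃ ℓ ∈ Q, GU (K := K) (Ω := Ω) ℓ (PT 𝓑 (2 * k / ℓ)) X) := by
      exact_mod_cast h1
    have h3 := (hR X hX).2
    have e : X ^ (1 / 2 + s / 3 : ℝ) / X = X ^ (-(1 / 2 - s / 3) : ℝ) := by
      rw [div_eq_mul_inv, ← Real.rpow_neg_one, ← Real.rpow_add hX0]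
      congr 1
      ring
    calc (Set.ncard {L : IntermediateField K Ω |
          (L ∈ PP 𝓑 (2 * k) ∧ dsc L ≤ X) ∧ P L} : ℝ) / X
        ≤ (Set.ncard {L : IntermediateField K Ω | L ∈ UX (PT 𝓑 k) X ∧ P L} +
            Ct * X ^ (1 / 2 + s / 3 : ℝ)) / X := by
          refine div_le_div_of_nonneg_right (by linarith) hX0.le
      _ = (Set.ncard {L : IntermediateField K Ω | L ∈ UX (PT 𝓑 k) X ∧ P L} : ℝ) / X +
          Ct * X ^ (-(1 / 2 - s / 3) : ℝ) := by
          rw [add_div, mul_div_assoc, e]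

end

end Pool.Agent.H419.MX
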