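import Pool.Agent.H419.MX.Tow

/-! # The joint distribution of the ramification for towers -/

set_option autoImplicit false
set_option linter.unusedSectionVars false
set_option maxHeartbeats 1000000

open NumberField Filter Topology
open Pool.Agent.TH444.ML
open Pool.Agent.Q258.LQ Pool.Agent.H419.LT Pool.Agent.H419.RM

namespace Pool.Agent.H419.MX

section

variable {K Ω : Type} [Field K] [NumberField K] [Field Ω] [Algebra K Ω] [IsAlgClosure K Ω]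

/-- **The mixture formula for towers.** -/
theorem towX (hq : S_QSX) (𝓑 : Set (IntermediateField K Ω))
    (hB : ∀ m : ℕ, 0 < m → ∃ θ : ℝ, θ < 3 / 2 ∧ ∃ C : ℝ, ∀ X : ℝ, 1 ≤ X →
      (Set.ncard {L : IntermediateField K Ω | L ∈ 𝓑 ∧ Module.finrank K L = m ∧ dsc L ≤ X} : ℝ) ≤
        C * X ^ θ) (k : ℕ) (hk : 0 < k) :
    ∃ w : IntermediateField K Ω → ℝ, (∀ M ∈ PT 𝓑 k, 0 < w M) ∧
      Summable (fun M : PT 𝓑 k => w M.1) ∧
      (∀ X : ℝ, {L : IntermediateField K Ω | L ∈ SAb 𝓑 ∧ Module.finrank K L = 2 * k ∧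
        dsc L ≤ X}.Finite) ∧
      ∀ S : Set (Ideal (𝓞 K)), (∀ 𝔭 ∈ S, 𝔭.IsPrime ∧ 𝔭 ≠ ⊥ ∧ (2 : 𝓞 K) ∉ 𝔭) →
      ∀ r : PT 𝓑 k → ℝ,
      (∀ M : PT 𝓑 k, ∀ h : NumberField M.1, r M = @locM K M.1 _ _ _ h _ S) →
      Tendsto (fun X : ℝ =>
        (Set.ncard {L : IntermediateField K Ω | (L ∈ SAb 𝓑 ∧ ∀ 𝔭 ∈ S, Unr K L 𝔭) ∧
          Module.finrank K L = 2 * k ∧ dsc L ≤ X} : ℝ) / X)
        atTop (𝓝 (∑' M : PT 𝓑 k, w M.1 * r M)) := by
  classical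
  have hac : IsAlgClosed Ω := IsAlgClosure.isAlgClosed K
  obtain ⟨s, hs1, hs2, hs⟩ := choose_s 𝓑 (2 * k) hB
  have hfd : ∀ F ∈ PT 𝓑 k, FiniteDimensional K F := fun F hF => fd_of_finrank hk hF.2
  have hM : ∀ M : PT 𝓑 k, ∃ c : ℝ, 0 < c ∧ ∀ S : Set (Ideal (𝓞 K)),
      (∀ 𝔭 ∈ S, 𝔭.IsPrime ∧ 𝔭 ≠ ⊥ ∧ (2 : 𝓞 K) ∉ 𝔭) → ∀ r : ℝ,
      (∀ h : NumberField M.1, r = @locM K M.1 _ _ _ h _ S) →
      Tendsto (fun Y : ℝ => (Set.ncard {L : IntermediateField K Ω |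
        L ∈ AS M.1 Y ∧ ∀ 𝔭 ∈ S, Unr K L 𝔭} : ℝ) / Y) atTop (𝓝 (c * r)) := by
    intro M
    have := hfd M.1 M.2
    have hnf : NumberField M.1 := nf_of_fd M.1
    obtain ⟨c, hc0, hc⟩ := limX_M hq M.1
    refine ⟨c, hc0, fun S hS r hr => ?_⟩
    rw [hr hnf]
    exact hc S hS
  choose c hc0 hc using hM
  have hdM : ∀ M : PT 𝓑 k, 0 < 1 / dsc M.1 ^ 2 := by
    intro M
    have := hfd M.1 M.2
    have hd1 : 1 ≤ dsc M.1 := one_le_dsc M.1
    have hd0 : 0 < dsc M.1 := by linarith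
    positivity
  have hmain := fun (P : IntermediateField K Ω → Prop) (c₀ : PT 𝓑 k → ℝ) =>
    main_evenX s hs1 hs2 𝓑 k hk hs P c₀
  set w : IntermediateField K Ω → ℝ := fun M =>
    if h : M ∈ PT 𝓑 k then c ⟨M, h⟩ * (1 / dsc M ^ 2) else 0 with hw
  have hw1 : ∀ M : PT 𝓑 k, w M.1 = c M * (1 / dsc M.1 ^ 2) := by
    intro M
    simp only [hw]
    rw [dif_pos M.2]
  refine ⟨w, ?_, ?_, ?_, ?_⟩
  · intro M h
    rw [hw1 ⟨M, h⟩]
    exact mul_pos (hc0 _) (hdM ⟨M, h⟩)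
  · have h3 := (hmain (fun L => ∀ 𝔭 ∈ (∅ : Set (Ideal (𝓞 K))), Unr K L 𝔭) c (fun M => by
      have h4 := hc M ∅ (fun 𝔭 h => absurd h (Set.notMem_empty 𝔭)) 1 (fun h => by
        have e : @locM K M.1 _ _ _ h _ ∅ = @locW M.1 _ h (@above K M.1 _ _ _ h _ ∅) :=
          if_pos fun 𝔭 h => absurd h (Set.notMem_empty 𝔭)
        rw [e]
        have e2 : @above K M.1 _ _ _ h _ ∅ = ∅ := by
          rw [Set.eq_empty_iff_forall_notMem]
          rintro 𝔓 ⟨-, h5⟩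
          exact h5
        rw [e2]
        refine le_antisymm ?_ ?_
        · refine le_ciInf ?_
          rintro ⟨W₀, hW₀⟩
          have : W₀ = ∅ := Finset.eq_empty_of_forall_notMem fun 𝔓 h => hW₀ 𝔓 h
          subst this
          simp [loc]
        · refine (locW_le ∅ ∅ (fun 𝔓 h => absurd h (Finset.notMem_empty 𝔓))).trans ?_
          simp [loc])
      rwa [mul_one] at h4)).1
    exact h3.congr fun M => (hw1 M).symm
  · intro X
    exact (finite_dsc (2 * k) (by omega) X).subset fun L hL => hL.2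
  · intro S hS r hr
    have h1 := (hmain (fun L => ∀ 𝔭 ∈ S, Unr K L 𝔭) (fun M => c M * r M)
      (fun M => hc M S hS (r M) (hr M))).2
    have e : ∑' M : PT 𝓑 k, w M.1 * r M =
        ∑' M : PT 𝓑 k, c M * r M * (1 / dsc M.1 ^ 2) := by
      refine tsum_congr fun M => ?_
      rw [hw1]
      ring
    rw [e]
    refine h1.congr fun X => ?_
    congr 3
    ext L
    simp only [Set.mem_ofPred_eq, sAb_iff, PP]
    tauto

end

end Pool.Agent.H419.MX
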